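import Pool.Agent.K6.H88.CM.Stm

set_option autoImplicit false

/-! # CONT: continuation of the Dirichlet series (piece by helper3) -/

open Filter Topology Complex

namespace Pool.Agent.K6.H88.CM

namespace CONT

/-- the terms after partial summation -/
noncomputable def tm (f : ℕ → ℂ) (n : ℕ) (s : ℂ) : ℂ :=
  PS f (n + 1) * ((((n : ℝ) + 1 : ℝ) : ℂ) ^ (-s) - (((n : ℝ) + 2 : ℝ) : ℂ) ^ (-s))

theorem PS_succ (f : ℕ → ℂ) (N : ℕ) : PS f (N + 1) = PS f N + f (N + 1) := by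
  rw [PS, PS, Finset.sum_Icc_succ_top (by omega)]

theorem abel (f : ℕ → ℂ) (s : ℂ) (N : ℕ) :
    DS f s N = PS f N * (((N : ℝ) + 1 : ℝ) : ℂ) ^ (-s) + ∑ n ∈ Finset.range N, tm f n s := by
  induction N with
  | zero => simp [DS, PS]
  | succ N ih =>
    have h1 : DS f s (N + 1) = DS f s N + f (N + 1) * ((N + 1 : ℕ) : ℂ) ^ (-s) := by
      rw [DS, DS, Finset.sum_Icc_succ_top (by omega)]
    rw [h1, ih, Finset.sum_range_succ, tm, PS_succ]
    have h2 : (((N + 1 : ℕ) : ℝ) + 1 : ℝ) = (N : ℝ) + 2 := by push_cast; ring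
    have h3 : ((N + 1 : ℕ) : ℂ) = (((N : ℝ) + 1 : ℝ) : ℂ) := by push_cast; ring
    rw [h2, h3]
    ring

theorem hasDeriv (s : ℂ) (x : ℝ) (hx : 0 < x) :
    HasDerivAt (fun y : ℝ => (y : ℂ) ^ (-s)) (-s * (x : ℂ) ^ (-s - 1)) x := by
  have h := (hasDerivAt_id (x : ℂ)).cpow_const (c := -s) (ofReal_mem_slitPlane.2 hx)
  have h2 := h.comp_ofReal
  simpa using h2

/-- bound for the difference of two consecutive powers -/
theorem diff_le (a : ℝ) (s : ℂ) (hs : -s.re - 1 ≤ a) (n : ℕ) :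
    ‖(((n : ℝ) + 1 : ℝ) : ℂ) ^ (-s) - (((n : ℝ) + 2 : ℝ) : ℂ) ^ (-s)‖ ≤
      ‖s‖ * (2 ^ |a| * ((n : ℝ) + 1) ^ a) := by
  have hn : (0 : ℝ) ≤ n := Nat.cast_nonneg n
  have hb : ∀ x ∈ Set.Icc ((n : ℝ) + 1) ((n : ℝ) + 2),
      ‖-s * (x : ℂ) ^ (-s - 1)‖ ≤ ‖s‖ * (2 ^ |a| * ((n : ℝ) + 1) ^ a) := by
    intro x hx
    have hx1 : 1 ≤ x := by linarith [hx.1]
    have hx0 : 0 < x := by linarith
    rw [norm_mul, norm_neg, Complex.norm_cpow_eq_rpow_re_of_pos hx0]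
    apply mul_le_mul_of_nonneg_left _ (norm_nonneg _)
    have h1 : x ^ (-s - 1).re ≤ x ^ a := by
      apply Real.rpow_le_rpow_of_exponent_le hx1
      simpa using hs
    refine h1.trans ?_
    rcases le_or_gt 0 a with ha | ha
    · calc x ^ a ≤ (2 * ((n : ℝ) + 1)) ^ a :=
            Real.rpow_le_rpow hx0.le (by linarith [hx.2]) ha
        _ = 2 ^ |a| * ((n : ℝ) + 1) ^ a := by
            rw [Real.mul_rpow (by norm_num) (by linarith), abs_of_nonneg ha]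
    · have h2 : x ^ a ≤ ((n : ℝ) + 1) ^ a :=
        Real.rpow_le_rpow_of_nonpos (by linarith) hx.1 ha.le
      have h3 : (1 : ℝ) ≤ 2 ^ |a| := Real.one_le_rpow (by norm_num) (abs_nonneg a)
      have h4 : 0 ≤ ((n : ℝ) + 1) ^ a := by positivity
      nlinarith
  have h := (convex_Icc ((n : ℝ) + 1) ((n : ℝ) + 2)).norm_image_sub_le_of_norm_hasDerivWithin_le
    (f := fun y : ℝ => (y : ℂ) ^ (-s)) (f' := fun x : ℝ => -s * (x : ℂ) ^ (-s - 1))
    (C := ‖s‖ * (2 ^ |a| * ((n : ℝ) + 1) ^ a))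
    (fun x hx => (hasDeriv s x (by linarith [hx.1])).hasDerivWithinAt) hb
    (x := (n : ℝ) + 2) (y := (n : ℝ) + 1) (by constructor <;> linarith) (by constructor <;> linarith)
  have h5 : ‖((n : ℝ) + 1) - ((n : ℝ) + 2)‖ = 1 := by
    rw [show ((n : ℝ) + 1) - ((n : ℝ) + 2) = -1 by ring]; simp
  rw [h5, mul_one] at h
  exact h

variable {f : ℕ → ℂ} {θ C : ℝ}

theorem C_nonneg (hD : Dec f θ C) : 0 ≤ C := by
  have h := hD 1 one_pos
  simp only [Nat.cast_one, Real.one_rpow, mul_one] at h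
  exact (norm_nonneg _).trans h

theorem tm_le (hD : Dec f θ C) (ε : ℝ) (s : ℂ) (hs : -θ + ε ≤ s.re) (n : ℕ) :
    ‖tm f n s‖ ≤ ‖s‖ * (C * 2 ^ |θ - ε - 1| * ((n : ℝ) + 1) ^ (-(1 + ε))) := by
  have hn : (0 : ℝ) < (n : ℝ) + 1 := by positivity
  have hC := C_nonneg hD
  rw [tm, norm_mul]
  have h1 := hD (n + 1) (by omega)
  have h2 := diff_le (θ - ε - 1) s (by linarith) n
  calc ‖PS f (n + 1)‖ * ‖(((n : ℝ) + 1 : ℝ) : ℂ) ^ (-s) - (((n : ℝ) + 2 : ℝ) : ℂ) ^ (-s)‖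
      ≤ (C * ((n + 1 : ℕ) : ℝ) ^ (-θ)) * (‖s‖ * (2 ^ |θ - ε - 1| * ((n : ℝ) + 1) ^ (θ - ε - 1))) :=
        mul_le_mul h1 h2 (norm_nonneg _) (by positivity)
    _ = ‖s‖ * (C * 2 ^ |θ - ε - 1| * (((n : ℝ) + 1) ^ (-θ) * ((n : ℝ) + 1) ^ (θ - ε - 1))) := by
        push_cast; ring
    _ = _ := by
        rw [← Real.rpow_add hn]
        congr 3
        ring

theorem summ (ε : ℝ) (hε : 0 < ε) : Summable (fun n : ℕ => ((n : ℝ) + 1) ^ (-(1 + ε))) := by
  have h : Summable (fun n : ℕ => ((n : ℝ)) ^ (-(1 + ε))) := Real.summable_nat_rpow.2 (by linarith)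
  have h2 := (summable_nat_add_iff 1).2 h
  refine h2.congr (fun n => ?_)
  push_cast
  rfl

theorem summ_tm (hD : Dec f θ C) (ε : ℝ) (hε : 0 < ε) (s : ℂ) (hs : -θ + ε ≤ s.re) :
    Summable (fun n => tm f n s) :=
  Summable.of_norm_bounded (((summ ε hε).mul_left _).mul_left _) (tm_le hD ε s hs)

theorem diff_tm (n : ℕ) : Differentiable ℂ (tm f n) := by
  intro s
  have hn : (0 : ℝ) ≤ n := Nat.cast_nonneg n
  unfold tm
  apply DifferentiableAt.const_mul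
  apply DifferentiableAt.sub
  · refine DifferentiableAt.const_cpow differentiableAt_id.neg (Or.inl ?_)
    exact_mod_cast (by positivity : ((n : ℝ) + 1) ≠ 0)
  · refine DifferentiableAt.const_cpow differentiableAt_id.neg (Or.inl ?_)
    exact_mod_cast (by positivity : ((n : ℝ) + 2) ≠ 0)

theorem tail (hθ : 0 < θ) (hD : Dec f θ C) (s : ℂ) (hs : -θ < s.re) :
    Tendsto (fun N : ℕ => PS f N * (((N : ℝ) + 1 : ℝ) : ℂ) ^ (-s)) atTop (𝓝 0) := by
  have hC := C_nonneg hD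
  have h0 : Tendsto (fun N : ℕ => C * 2 ^ θ * ((N : ℝ) + 1) ^ (-(θ + s.re))) atTop (𝓝 0) := by
    have h1 : Tendsto (fun N : ℕ => ((N : ℝ) + 1) ^ (-(θ + s.re))) atTop (𝓝 0) :=
      (tendsto_rpow_neg_atTop (by linarith : 0 < θ + s.re)).comp
        (tendsto_atTop_add_const_right _ _ tendsto_natCast_atTop_atTop)
    simpa using h1.const_mul (C * 2 ^ θ)
  refine squeeze_zero_norm' ?_ h0
  filter_upwards [eventually_ge_atTop 1] with N hN
  have hN1 : (1 : ℝ) ≤ N := by exact_mod_cast hN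
  have hN0 : (0 : ℝ) < (N : ℝ) + 1 := by positivity
  rw [norm_mul, Complex.norm_cpow_eq_rpow_re_of_pos hN0]
  have h1 := hD N hN
  have h2 : (N : ℝ) ^ (-θ) ≤ 2 ^ θ * ((N : ℝ) + 1) ^ (-θ) := by
    have h3 : (N : ℝ) ^ (-θ) ≤ (((N : ℝ) + 1) / 2) ^ (-θ) :=
      Real.rpow_le_rpow_of_nonpos (by positivity) (by linarith) (by linarith)
    refine h3.trans (le_of_eq ?_)
    rw [Real.div_rpow hN0.le (by norm_num), Real.rpow_neg (by norm_num : (0:ℝ) ≤ 2), div_inv_eq_mul]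
    ring
  calc ‖PS f N‖ * ((N : ℝ) + 1) ^ (-s).re
      ≤ (C * (2 ^ θ * ((N : ℝ) + 1) ^ (-θ))) * ((N : ℝ) + 1) ^ (-s).re :=
        mul_le_mul_of_nonneg_right (h1.trans (mul_le_mul_of_nonneg_left h2 hC)) (by positivity)
    _ = C * 2 ^ θ * (((N : ℝ) + 1) ^ (-θ) * ((N : ℝ) + 1) ^ (-s).re) := by ring
    _ = _ := by
        rw [← Real.rpow_add hN0]
        congr 2
        simp; ring

end CONT

open CONT in
theorem t_CONT : S_CONT := by
  intro f θ C hθ hD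
  refine ⟨fun s => ∑' n, tm f n s, ?_, ?_, ?_⟩
  · intro s hs
    rw [Set.mem_ofPred_eq] at hs
    set ε := (θ + s.re) / 2 with hε
    have hε0 : 0 < ε := by rw [hε]; linarith
    have hU : IsOpen ({w : ℂ | -θ + ε < w.re} ∩ Metric.ball 0 (‖s‖ + 1)) :=
      (isOpen_lt continuous_const Complex.continuous_re).inter Metric.isOpen_ball
    have h := differentiableOn_tsum_of_summable_norm
      (u := fun n : ℕ => (‖s‖ + 1) * (C * 2 ^ |θ - ε - 1| * ((n : ℝ) + 1) ^ (-(1 + ε))))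
      (F := fun n w => tm f n w) (((summ ε hε0).mul_left _).mul_left _)
      (fun n => (diff_tm n).differentiableOn) hU (by
        intro n w hw
        refine (tm_le hD ε w hw.1.le n).trans ?_
        have hw2 : ‖w‖ ≤ ‖s‖ + 1 := by
          have := hw.2
          rw [mem_ball_zero_iff] at this
          exact this.le
        have hC := C_nonneg hD
        exact mul_le_mul_of_nonneg_right hw2 (by positivity))
    have hs' : s ∈ {w : ℂ | -θ + ε < w.re} ∩ Metric.ball 0 (‖s‖ + 1) := by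
      constructor
      · rw [Set.mem_ofPred_eq, hε]; linarith
      · rw [mem_ball_zero_iff]; linarith
    exact (h.differentiableAt (hU.mem_nhds hs')).differentiableWithinAt
  · intro s hs
    have hε0 : 0 < θ + s.re := by linarith
    have h1 := (summ_tm hD (θ + s.re) hε0 s (by linarith)).hasSum.tendsto_sum_nat
    have h2 := (tail hθ hD s hs).add h1
    rw [zero_add] at h2
    refine h2.congr (fun N => ?_)
    rw [abel]
  · intro ε hε
    refine ⟨∑' n : ℕ, C * 2 ^ |θ - ε - 1| * ((n : ℝ) + 1) ^ (-(1 + ε)), fun s hs => ?_⟩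
    have hC := C_nonneg hD
    have hsum := (summ ε hε).mul_left (C * 2 ^ |θ - ε - 1|)
    have h1 : ‖∑' n, tm f n s‖ ≤ ∑' n : ℕ, ‖s‖ * (C * 2 ^ |θ - ε - 1| * ((n : ℝ) + 1) ^ (-(1 + ε))) :=
      tsum_of_norm_bounded ((hsum.mul_left _).hasSum) (tm_le hD ε s hs)
    rw [tsum_mul_left] at h1
    refine h1.trans ?_
    have h3 : 0 ≤ ∑' n : ℕ, C * 2 ^ |θ - ε - 1| * ((n : ℝ) + 1) ^ (-(1 + ε)) :=
      tsum_nonneg (fun n => by positivity)
    rw [mul_comm]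
    exact mul_le_mul_of_nonneg_left (by linarith) h3

end Pool.Agent.K6.H88.CM
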