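import Pool.Agent.K6.H88.CM.Stm

/-!
# Piece END (helper78): the sum of all `f(n)` is not zero
-/

set_option autoImplicit false

open Filter Topology

namespace Pool.Agent.K6.H88.CM

namespace END

/-- `f`, with `f 0` replaced by `0`, as a homomorphism -/
noncomputable def hm (f : ℕ → ℂ) (hf : IsCM f) : ℕ →*₀ ℂ where
  toFun n := if n = 0 then 0 else f n
  map_zero' := if_pos rfl
  map_one' := by simp [hf.one]
  map_mul' := by
    intro m n
    rcases Nat.eq_zero_or_pos m with rfl | hm0
    · simp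
    rcases Nat.eq_zero_or_pos n with rfl | hn0
    · simp
    rw [if_neg (Nat.mul_pos hm0 hn0).ne', if_neg hm0.ne', if_neg hn0.ne', hf.mul m n hm0 hn0]

lemma hm_apply (f : ℕ → ℂ) (hf : IsCM f) {n : ℕ} (hn : n ≠ 0) : hm f hf n = f n := if_neg hn

/-- the sum over the primes converges absolutely -/
lemma sum_primes (f : ℕ → ℂ) (η K : ℝ) (hη : 0 < η)
    (h : ∀ᶠ N : ℕ in atTop, ∑ p ∈ (Finset.Icc 1 N).filter Nat.Prime,
      ‖f p‖ ^ 2 * (p : ℝ) ^ (1 + η) ≤ K * Real.log N ^ 2) :
    Summable (fun n : ℕ => if n.Prime then ‖f n‖ else 0) := by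
  set a : ℕ → ℝ := fun n => if n.Prime then ‖f n‖ ^ 2 * (n : ℝ) ^ (1 + η) else 0 with ha
  have ha0 : ∀ n, 0 ≤ a n := by
    intro n
    simp only [ha]
    split_ifs
    · positivity
    · exact le_refl 0
  have hO : (fun n : ℕ => ∑ k ∈ Finset.Icc 1 n, a k) =O[atTop] fun n : ℕ => (n : ℝ) ^ (η / 4) := by
    have h1 : (fun n : ℕ => ∑ k ∈ Finset.Icc 1 n, a k) =O[atTop] fun n : ℕ => Real.log n ^ 2 := by
      refine Asymptotics.IsBigO.of_bound (|K|) ?_
      filter_upwards [h] with N hN
      have e : ∑ k ∈ Finset.Icc 1 N, a k =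
          ∑ p ∈ (Finset.Icc 1 N).filter Nat.Prime, ‖f p‖ ^ 2 * (p : ℝ) ^ (1 + η) := by
        rw [Finset.sum_filter]
      rw [Real.norm_of_nonneg (Finset.sum_nonneg fun k _ => ha0 k),
        Real.norm_of_nonneg (sq_nonneg _), e]
      exact hN.trans (mul_le_mul_of_nonneg_right (le_abs_self K) (sq_nonneg _))
    refine h1.trans ?_
    have h2 := ((isLittleO_log_rpow_atTop (show 0 < η / 8 by positivity)).pow
      (n := 2) two_pos).isBigO
    have h3 := h2.comp_tendsto tendsto_natCast_atTop_atTop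
    refine h3.congr (fun n => rfl) (fun n => ?_)
    change ((n : ℝ) ^ (η / 8)) ^ 2 = (n : ℝ) ^ (η / 4)
    rw [← Real.rpow_natCast, ← Real.rpow_mul (Nat.cast_nonneg n)]
    congr 1
    push_cast
    ring
  have hs := LSeriesSummable_of_sum_norm_bigO_and_nonneg (s := ((η / 2 : ℝ) : ℂ)) hO ha0
    (by positivity) (by rw [Complex.ofReal_re]; linarith)
  have hs2 : Summable fun n : ℕ => (n : ℝ) ^ (-(1 + η / 2)) :=
    Real.summable_nat_rpow.2 (by linarith)
  refine Summable.of_nonneg_of_le (fun n => ?_) (fun n => ?_) ((Summable.norm hs).add hs2)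
  · split_ifs
    · exact norm_nonneg _
    · exact le_refl 0
  · split_ifs with hn
    · have hn0 : n ≠ 0 := hn.ne_zero
      have hnp : (0 : ℝ) < n := by exact_mod_cast hn.pos
      rw [LSeries.norm_term_eq, if_neg hn0, Complex.ofReal_re, Complex.norm_real,
        Real.norm_of_nonneg (ha0 n)]
      have e1 : a n = ‖f n‖ ^ 2 * (n : ℝ) ^ (1 + η) := if_pos hn
      set y : ℝ := (n : ℝ) ^ (1 + η / 2) with hy
      have hy0 : 0 < y := Real.rpow_pos_of_pos hnp _
      have hz0 : 0 < (n : ℝ) ^ (η / 2) := Real.rpow_pos_of_pos hnp _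
      have e2 : (n : ℝ) ^ (1 + η) = y * (n : ℝ) ^ (η / 2) := by
        rw [hy, ← Real.rpow_add hnp]
        congr 1
        ring
      have e3 : (n : ℝ) ^ (-(1 + η / 2)) = y⁻¹ := Real.rpow_neg hnp.le _
      rw [e1, e2, e3, ← mul_assoc, mul_div_assoc, div_self hz0.ne', mul_one]
      have h5 : ‖f n‖ * y ≤ (‖f n‖ * y) ^ 2 + 1 := by nlinarith [sq_nonneg (‖f n‖ * y - 1)]
      calc ‖f n‖ = (‖f n‖ * y) * y⁻¹ := by
            rw [mul_assoc, mul_inv_cancel₀ hy0.ne', mul_one]
        _ ≤ ((‖f n‖ * y) ^ 2 + 1) * y⁻¹ := mul_le_mul_of_nonneg_right h5 (by positivity)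
        _ = ‖f n‖ ^ 2 * y + y⁻¹ := by
            field_simp
    · positivity

/-- the products `∏ (1 - v p)⁻¹` are bounded -/
lemma prod_bd (v : ℕ → ℝ) (hv0 : ∀ n, 0 ≤ v n) (hv1 : ∀ n, v n < 1) (hs : Summable v) :
    ∃ B : ℝ, ∀ s : Finset ℕ, ∏ p ∈ s, (1 - v p)⁻¹ ≤ B := by
  set y : ℕ → ℝ := fun n => v n / (1 - v n) with hy
  have h1v : ∀ n, 0 < 1 - v n := fun n => by linarith [hv1 n]
  have hy0 : ∀ n, 0 ≤ y n := fun n => div_nonneg (hv0 n) (h1v n).le
  have hys : Summable y := by
    refine Summable.of_norm_bounded_eventually_nat (g := fun n => 2 * v n) (hs.mul_left 2) ?_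
    have h1 := hs.tendsto_atTop_zero.eventually
      (eventually_le_nhds (show (0 : ℝ) < 1 / 2 by norm_num))
    filter_upwards [h1] with n hn
    rw [Real.norm_of_nonneg (hy0 n)]
    change v n / (1 - v n) ≤ 2 * v n
    rw [div_le_iff₀ (h1v n)]
    nlinarith [hv0 n]
  refine ⟨Real.exp (∑' n, y n), fun s => ?_⟩
  calc ∏ p ∈ s, (1 - v p)⁻¹ ≤ ∏ p ∈ s, Real.exp (y p) := by
        refine Finset.prod_le_prod (fun p _ => (inv_pos.2 (h1v p)).le) fun p _ => ?_
        have e : (1 - v p)⁻¹ = y p + 1 := by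
          change (1 - v p)⁻¹ = v p / (1 - v p) + 1
          have := (h1v p).ne'
          field_simp
          ring
        rw [e]
        exact Real.add_one_le_exp _
    _ = Real.exp (∑ p ∈ s, y p) := (Real.exp_sum _ _).symm
    _ ≤ Real.exp (∑' n, y n) :=
        Real.exp_le_exp.2 (hys.sum_le_tsum s fun n _ => hy0 n)

end END

open END in
theorem t_END : S_END := by
  intro f η K hf hp hη h hlim
  have hsum := sum_primes f η K hη h
  set v : ℕ → ℝ := fun n => if n.Prime then ‖f n‖ else 0 with hv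
  have hv0 : ∀ n, 0 ≤ v n := by
    intro n
    simp only [hv]
    split_ifs
    · exact norm_nonneg _
    · exact le_refl 0
  have hv1 : ∀ n, v n < 1 := by
    intro n
    simp only [hv]
    split_ifs with hn
    · exact hp n hn
    · exact one_pos
  obtain ⟨B, hB⟩ := prod_bd v hv0 hv1 hsum
  have hn : Summable fun n => ‖hm f hf n‖ := by
    let nh : ℕ →* ℝ :=
      { toFun := fun n => ‖hm f hf n‖
        map_one' := by rw [map_one, norm_one]
        map_mul' := fun m n => by rw [map_mul, norm_mul] }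
    have hnh : ∀ n, nh n = ‖hm f hf n‖ := fun n => rfl
    refine summable_of_sum_le (c := B) (fun n => norm_nonneg _) fun T => ?_
    have h1 := (EulerProduct.summable_and_hasSum_smoothNumbers_prod_primesBelow_geometric
      (f := nh) (fun {p} hpp => by
        rw [hnh, norm_norm, hm_apply f hf hpp.ne_zero]
        exact hp p hpp) (T.sup id + 1)).2
    have h2 : HasSum (Set.indicator ((T.sup id + 1).smoothNumbers : Set ℕ) fun n => nh n)
        (∏ p ∈ (T.sup id + 1).primesBelow, (1 - nh p)⁻¹) :=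
      hasSum_subtype_iff_indicator.mp h1
    have h3 : ∀ n, 0 ≤ Set.indicator ((T.sup id + 1).smoothNumbers : Set ℕ) (fun n => nh n) n :=
      fun n => Set.indicator_nonneg (fun m _ => by rw [hnh]; exact norm_nonneg _) n
    calc ∑ n ∈ T, ‖hm f hf n‖ ≤
          ∑ n ∈ T, Set.indicator ((T.sup id + 1).smoothNumbers : Set ℕ) (fun n => nh n) n := by
          refine Finset.sum_le_sum fun n hnT => ?_
          rcases Nat.eq_zero_or_pos n with rfl | hn0
          · rw [map_zero, norm_zero]
            exact h3 0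
          · have h4 : n ≤ T.sup id := Finset.le_sup (f := id) hnT
            have h5 : n ∈ (T.sup id + 1).smoothNumbers :=
              Nat.mem_smoothNumbers_of_lt hn0 (by omega)
            rw [Set.indicator_of_mem h5]
            exact le_of_eq (hnh n).symm
      _ ≤ ∏ p ∈ (T.sup id + 1).primesBelow, (1 - nh p)⁻¹ := sum_le_hasSum T (fun n _ => h3 n) h2
      _ = ∏ p ∈ (T.sup id + 1).primesBelow, (1 - v p)⁻¹ := by
          refine Finset.prod_congr rfl fun p hpb => ?_
          have hpp := Nat.prime_of_mem_primesBelow hpb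
          have e : v p = ‖f p‖ := if_pos hpp
          rw [hnh, hm_apply f hf hpp.ne_zero, e]
      _ ≤ B := hB _
  have hS := EulerProduct.exp_tsum_primes_log_eq_tsum (f := hm f hf) hn
  have hSne : ∑' n, hm f hf n ≠ 0 := by
    rw [← hS]
    exact Complex.exp_ne_zero _
  have hT := hn.of_norm.hasSum.tendsto_sum_nat
  have hPS : ∀ N, PS f N = ∑ n ∈ Finset.range (N + 1), hm f hf n := by
    intro N
    induction N with
    | zero =>
      rw [Finset.sum_range_one, map_zero]
      simp [PS]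
    | succ N ih =>
      rw [Finset.sum_range_succ, ← ih, hm_apply f hf (Nat.succ_ne_zero N)]
      unfold PS
      rw [Finset.sum_Icc_succ_top (by omega)]
  have hT' := (tendsto_add_atTop_iff_nat 1).2 hT
  exact hSne (tendsto_nhds_unique (hT'.congr fun N => (hPS N).symm) hlim)

end Pool.Agent.K6.H88.CM
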