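import Pool.Agent.K6.H88.CM.Main

/-!
# Consequences (helper88, project CM)
-/

set_option autoImplicit false
set_option linter.all false

open Filter Topology Complex

namespace Pool.Agent.K6.H88.CM

theorem conj_cm {f : ℕ → ℂ} (hf : IsCM f) : IsCM fun n => (starRingEnd ℂ) (f n) := by
  refine ⟨by simp [hf.one], fun m n hm hn => ?_⟩
  simp only [hf.mul m n hm hn, map_mul]

theorem conj_dec {f : ℕ → ℂ} {θ C : ℝ} (h : Dec f θ C) : Dec (fun n => (starRingEnd ℂ) (f n)) θ C := by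
  intro N hN
  have e : PS (fun n => (starRingEnd ℂ) (f n)) N = (starRingEnd ℂ) (PS f N) := by
    unfold PS
    rw [map_sum]
  rw [e, RCLike.norm_conj]
  exact h N hN

theorem conj_ds (f : ℕ → ℂ) (s : ℂ) (N : ℕ) :
    DS f ((starRingEnd ℂ) s) N = (starRingEnd ℂ) (DS (fun n => (starRingEnd ℂ) (f n)) s N) := by
  unfold DS
  rw [map_sum]
  refine Finset.sum_congr rfl fun n hn => ?_
  have harg : Complex.arg (n : ℂ) ≠ Real.pi := by
    rw [Complex.natCast_arg]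
    exact Real.pi_ne_zero.symm
  have hc : ∀ w : ℂ, (starRingEnd ℂ) ((n : ℂ) ^ w) = (n : ℂ) ^ ((starRingEnd ℂ) w) := by
    intro w
    rw [Complex.cpow_conj _ _ harg, Complex.conj_natCast]
  rw [map_mul, Complex.conj_conj, hc, map_neg]

theorem both (hC : S_CONT) (hE : S_END) (hL : S_LOG) (hMS : S_MS) (hVK : S_VK) {f : ℕ → ℂ}
    {θ C : ℝ} (hf : IsCM f) (hθ : 1 / 2 < θ) (hD : Dec f θ C) {δ : ℝ} (hδ : 0 < δ) (T : ℝ) :
    (∃ s : ℂ, T < s.im ∧ -1 / 2 - δ < s.re ∧ Tendsto (DS f s) atTop (𝓝 0)) ∧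
    ∃ s : ℂ, s.im < -T ∧ -1 / 2 - δ < s.re ∧ Tendsto (DS f s) atTop (𝓝 0) := by
  obtain ⟨δ', hδ'⟩ : ∃ δ', δ' = min δ (min (1 / 4) ((θ - 1 / 2) / 2)) := ⟨_, rfl⟩
  have a1 : δ' ≤ δ := by rw [hδ']; exact min_le_left _ _
  have a2 : δ' ≤ 1 / 4 := by rw [hδ']; exact (min_le_right _ _).trans (min_le_left _ _)
  have a3 : δ' ≤ (θ - 1 / 2) / 2 := by rw [hδ']; exact (min_le_right _ _).trans (min_le_right _ _)
  have a4 : 0 < δ' := by
    rw [hδ']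
    exact lt_min hδ (lt_min (by norm_num) (by linarith))
  constructor
  · obtain ⟨s, h1, h2, h3⟩ := main hC hE hL hMS hVK hf hθ hD a4 a2 (by linarith) T
    exact ⟨s, h1, by linarith, h3⟩
  · obtain ⟨s, h1, h2, h3⟩ := main hC hE hL hMS hVK (conj_cm hf) hθ (conj_dec hD) a4 a2 (by linarith) T
    refine ⟨(starRingEnd ℂ) s, by simp; exact h1, by simp; linarith, ?_⟩
    have h4 := (Complex.continuous_conj.tendsto (0 : ℂ)).comp h3
    rw [map_zero] at h4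
    exact h4.congr fun N => (conj_ds f s N).symm

/-- The dichotomy. -/
theorem dich (hC : S_CONT) (hE : S_END) (hL : S_LOG) (hMS : S_MS) (hVK : S_VK) {f : ℕ → ℂ}
    (hf : IsCM f) :
    (∀ ε : ℝ, 0 < ε → ∀ (C : ℝ) (N₀ : ℕ), ∃ N ≥ N₀, C * (N : ℝ) ^ (-(1 / 2 + ε)) < ‖PS f N‖) ∨
    ∀ (δ : ℝ), 0 < δ → ∀ T : ℝ,
      (∃ s : ℂ, T < s.im ∧ -1 / 2 - δ < s.re ∧ Tendsto (DS f s) atTop (𝓝 0)) ∧
      ∃ s : ℂ, s.im < -T ∧ -1 / 2 - δ < s.re ∧ Tendsto (DS f s) atTop (𝓝 0) := by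
  by_cases h : ∀ ε : ℝ, 0 < ε → ∀ (C : ℝ) (N₀ : ℕ), ∃ N ≥ N₀, C * (N : ℝ) ^ (-(1 / 2 + ε)) < ‖PS f N‖
  · exact Or.inl h
  right
  push Not at h
  obtain ⟨ε, hε, C, N₀, hN⟩ := h
  -- a constant for the small values
  obtain ⟨C', hC'⟩ : ∃ C' : ℝ, ∀ N : ℕ, 0 < N → N < N₀ → ‖PS f N‖ ≤ C' * (N : ℝ) ^ (-(1 / 2 + ε)) := by
    refine ⟨∑ N ∈ Finset.range N₀, ‖PS f N‖ * (N : ℝ) ^ (1 / 2 + ε), fun N h0 h1 => ?_⟩
    have hNr : (0 : ℝ) < N := by exact_mod_cast h0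
    have h2 : ‖PS f N‖ * (N : ℝ) ^ (1 / 2 + ε) ≤
        ∑ N ∈ Finset.range N₀, ‖PS f N‖ * (N : ℝ) ^ (1 / 2 + ε) :=
      Finset.single_le_sum (f := fun N : ℕ => ‖PS f N‖ * (N : ℝ) ^ (1 / 2 + ε))
        (fun i _ => by positivity) (Finset.mem_range.2 h1)
    rw [Real.rpow_neg hNr.le, ← div_eq_mul_inv, le_div_iff₀ (Real.rpow_pos_of_pos hNr _)]
    exact h2
  have hD : Dec f (1 / 2 + ε) (max C C') := by
    intro N h0
    have hNr : (0 : ℝ) < N := by exact_mod_cast h0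
    have h3 := (Real.rpow_pos_of_pos hNr (-(1 / 2 + ε))).le
    rcases Nat.lt_or_ge N N₀ with h1 | h1
    · exact (hC' N h0 h1).trans (mul_le_mul_of_nonneg_right (le_max_right _ _) h3)
    · exact (hN N h1).trans (mul_le_mul_of_nonneg_right (le_max_left _ _) h3)
  intro δ hδ T
  exact both hC hE hL hMS hVK hf (by linarith) hD hδ T

end Pool.Agent.K6.H88.CM
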