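import Pool.Agent.K6.H88.CM.Stm

/-!
# Piece LOG: the logarithmic derivative (helper70, for helper88)
-/

set_option autoImplicit false
set_option linter.all false

open Filter Topology Complex

namespace Pool.Agent.K6.H88.CM

namespace LOG


theorem conv_distrib {f : ℕ → ℂ} (hf : IsCM f) (g h : ℕ → ℂ) :
    LSeries.convolution (f * g) (f * h) = f * LSeries.convolution g h := by
  ext n
  simp only [Pi.mul_apply, LSeries.convolution_def, Finset.mul_sum]
  refine Finset.sum_congr rfl fun p hp ↦ ?_
  have h1 := Nat.mem_divisorsAntidiagonal.mp hp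
  have h2 : p.1 ≠ 0 := by
    intro h0
    exact h1.2 (by rw [← h1.1, h0, zero_mul])
  have h3 : p.2 ≠ 0 := by
    intro h0
    exact h1.2 (by rw [← h1.1, h0, mul_zero])
  have e : f n = f p.1 * f p.2 := by
    rw [← h1.1]
    exact hf.mul _ _ (Nat.pos_of_ne_zero h2) (Nat.pos_of_ne_zero h3)
  rw [e]
  ring

theorem conv_moebius {f : ℕ → ℂ} (hf : IsCM f) :
    LSeries.convolution f (f * (fun n => (ArithmeticFunction.moebius n : ℂ))) = LSeries.delta := by
  have h : LSeries.convolution (1 : ℕ → ℂ) (fun n => (ArithmeticFunction.moebius n : ℂ)) = LSeries.delta := by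
    rw [LSeries.one_convolution_eq_zeta_convolution, ← ArithmeticFunction.one_eq_delta]
    simp_rw [← ArithmeticFunction.natCoe_apply, ← ArithmeticFunction.intCoe_apply,
      ArithmeticFunction.coe_mul, ArithmeticFunction.coe_zeta_mul_coe_moebius]
  have h2 := conv_distrib hf 1 (fun n => (ArithmeticFunction.moebius n : ℂ))
  rw [mul_one, h] at h2
  rw [h2]
  exact LSeries.mul_delta hf.one

theorem summ_mul {f g : ℕ → ℂ} (hb : ∀ n : ℕ, ‖f n‖ ≤ 1) {s : ℂ} (h : LSeriesSummable g s) :
    LSeriesSummable (f * g) s := by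
  refine .of_norm <| h.norm.of_nonneg_of_le (fun _ ↦ norm_nonneg _) fun n ↦
    LSeries.norm_term_le s ?_
  simpa using mul_le_of_le_one_left (norm_nonneg <| g n) <| hb n

end LOG

theorem t_LOG : S_LOG := by
  intro f hf h0 hb s hs
  have hS : LSeriesSummable f s := LSeriesSummable_of_bounded_of_one_lt_re (fun n _ ↦ hb n) hs
  have hM : LSeriesSummable (f * (fun n => (ArithmeticFunction.moebius n : ℂ))) s :=
    LOG.summ_mul hb (ArithmeticFunction.LSeriesSummable_moebius_iff.mpr hs)
  have h1 : LSeries f s * LSeries (f * (fun n => (ArithmeticFunction.moebius n : ℂ))) s = 1 := by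
    rw [← LSeries_convolution' hS hM, LOG.conv_moebius hf, LSeries_delta, Pi.one_apply]
  have hne : LSeries f s ≠ 0 := fun h ↦ by simp [h] at h1
  have hL : LSeriesSummable (f * (fun n => (ArithmeticFunction.vonMangoldt n : ℂ))) s :=
    LOG.summ_mul hb (ArithmeticFunction.LSeriesSummable_vonMangoldt hs)
  have hs' : LSeries.abscissaOfAbsConv f < s.re := by
    refine lt_of_le_of_lt (LSeries.abscissaOfAbsConv_le_of_le_const ⟨1, fun n _ ↦ hb n⟩) ?_
    exact_mod_cast hs
  have hconv : LSeries.convolution (f * (fun n => (ArithmeticFunction.vonMangoldt n : ℂ))) f =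
      f * (fun n : ℕ => Complex.log n) := by
    have h2 := LOG.conv_distrib hf (fun n => (ArithmeticFunction.vonMangoldt n : ℂ)) 1
    rw [mul_one, ArithmeticFunction.convolution_vonMangoldt_const_one] at h2
    exact h2
  refine ⟨hL, hne, ?_⟩
  change LSeries (f * (fun n => (ArithmeticFunction.vonMangoldt n : ℂ))) s = _
  rw [eq_div_iff hne, ← LSeries_convolution' hL hS, hconv, LSeries_deriv hs', neg_neg]
  exact LSeries_congr (fun _ ↦ by simp [mul_comm, LSeries.logMul]) s

end Pool.Agent.K6.H88.CM
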