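import Pool.Agent.K6.H88.CM.Stm

/-! # MS (helper88) -/

set_option autoImplicit false
set_option linter.all false

open Filter Topology Complex MeasureTheory

namespace Pool.Agent.K6.H88.CM

namespace MSX

theorem log_sep {m n N : ℕ} (hm : 1 ≤ m) (hn : 1 ≤ n) (hmN : m ≤ N) (hnN : n ≤ N) (hne : m ≠ n) :
    1 / (N : ℝ) ≤ |Real.log n - Real.log m| := by
  have key : ∀ {m n : ℕ}, 1 ≤ m → m < n → n ≤ N → 1 / (N : ℝ) ≤ Real.log n - Real.log m := by
    intro m n hm hmn hnN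
    have hm0 : (0 : ℝ) < m := by exact_mod_cast hm
    have hn0 : (0 : ℝ) < n := by exact_mod_cast (by omega : 0 < n)
    have h1 : Real.log (m / n) ≤ (m : ℝ) / n - 1 := Real.log_le_sub_one_of_pos (by positivity)
    rw [Real.log_div hm0.ne' hn0.ne'] at h1
    have h2 : (m : ℝ) + 1 ≤ n := by exact_mod_cast hmn
    have h3 : (1 : ℝ) / N ≤ 1 / n := by
      apply one_div_le_one_div_of_le hn0
      exact_mod_cast hnN
    have h4 : (1 : ℝ) / n ≤ 1 - (m : ℝ) / n := by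
      rw [div_le_iff₀ hn0, sub_mul, div_mul_cancel₀ _ hn0.ne']
      linarith
    linarith
  rcases Nat.lt_or_gt_of_ne hne with h | h
  · exact (key hm h hnN).trans (le_abs_self _)
  · have := key hn h hmN
    rw [abs_sub_comm]
    exact this.trans (le_abs_self _)

theorem int_exp {c : ℝ} (hc : c ≠ 0) (a b : ℝ) : ‖∫ t in a..b, Complex.exp ((c * I) * t)‖ ≤ 2 / |c| := by
  have hc' : (c : ℂ) * I ≠ 0 := mul_ne_zero (by exact_mod_cast hc) I_ne_zero
  rw [integral_exp_mul_complex hc', norm_div]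
  have e : ‖(c : ℂ) * I‖ = |c| := by rw [norm_mul, norm_I, mul_one, norm_real, Real.norm_eq_abs]
  rw [e]
  have h1 : ∀ x : ℝ, ‖Complex.exp ((c : ℂ) * I * x)‖ = 1 := by
    intro x
    have : (c : ℂ) * I * x = ((c * x : ℝ) : ℂ) * I := by push_cast; ring
    rw [this, Complex.norm_exp_ofReal_mul_I]
  gcongr
  calc _ ≤ ‖Complex.exp ((c : ℂ) * I * b)‖ + ‖Complex.exp ((c : ℂ) * I * a)‖ := norm_sub_le _ _
    _ = 2 := by rw [h1, h1]; norm_num

end MSX

theorem t_MS : S_MS := by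
  intro b B σ h1 h2 hB hb N T hN hT
  have hcpow : ∀ n : ℕ, 0 < n → ∀ t : ℝ, (n : ℂ) ^ (-((σ : ℂ) + t * I)) =
      (((n : ℝ) ^ (-σ) : ℝ) : ℂ) * Complex.exp ((((-Real.log n : ℝ) : ℂ) * I) * t) := by
    intro n hn t
    have hn0 : (n : ℂ) ≠ 0 := by exact_mod_cast hn.ne'
    rw [neg_add, Complex.cpow_add _ _ hn0]
    congr 1
    · rw [Complex.ofReal_cpow (Nat.cast_nonneg n)]
      push_cast
      rfl
    · rw [Complex.cpow_def_of_ne_zero hn0, ← Complex.natCast_log]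
      congr 1
      push_cast
      ring
  have hfun : ∀ t : ℝ, (((‖∑ n ∈ Finset.Icc 1 N, b n * (n : ℂ) ^ (-((σ : ℂ) + t * I))‖ ^ 2 : ℝ)) : ℂ) =
      ∑ m ∈ Finset.Icc 1 N, ∑ n ∈ Finset.Icc 1 N,
        (b m * (((m : ℝ) ^ (-σ) : ℝ) : ℂ) * ((starRingEnd ℂ) (b n) * (((n : ℝ) ^ (-σ) : ℝ) : ℂ))) *
          Complex.exp ((((Real.log n - Real.log m : ℝ) : ℂ) * I) * t) := by
    intro t
    have e1 : (((‖∑ n ∈ Finset.Icc 1 N, b n * (n : ℂ) ^ (-((σ : ℂ) + t * I))‖ ^ 2 : ℝ)) : ℂ) =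
        (∑ n ∈ Finset.Icc 1 N, b n * (n : ℂ) ^ (-((σ : ℂ) + t * I))) *
          (starRingEnd ℂ) (∑ n ∈ Finset.Icc 1 N, b n * (n : ℂ) ^ (-((σ : ℂ) + t * I))) := by
      rw [Complex.mul_conj, Complex.normSq_eq_norm_sq]
    rw [e1, map_sum, Finset.sum_mul_sum]
    refine Finset.sum_congr rfl fun m hm => Finset.sum_congr rfl fun n hn => ?_
    have hm0 : 0 < m := by have := (Finset.mem_Icc.1 hm).1; omega
    have hn0 : 0 < n := by have := (Finset.mem_Icc.1 hn).1; omega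
    rw [hcpow m hm0, hcpow n hn0, map_mul, map_mul, Complex.conj_ofReal, ← Complex.exp_conj]
    have e2 : (starRingEnd ℂ) (((-Real.log n : ℝ) : ℂ) * I * t) = ((Real.log n : ℝ) : ℂ) * I * t := by
      simp only [map_mul, Complex.conj_ofReal, Complex.conj_I]
      push_cast
      ring
    have e3 : Complex.exp ((((Real.log n - Real.log m : ℝ) : ℂ) * I) * t) =
        Complex.exp (((-Real.log m : ℝ) : ℂ) * I * t) * Complex.exp (((Real.log n : ℝ) : ℂ) * I * t) := by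
      rw [← Complex.exp_add]
      congr 1
      push_cast
      ring
    rw [e2, e3]
    ring
  have hint : ((∫ t in T..2 * T, ‖∑ n ∈ Finset.Icc 1 N, b n * (n : ℂ) ^ (-((σ : ℂ) + t * I))‖ ^ 2 : ℝ) : ℂ) =
      ∑ m ∈ Finset.Icc 1 N, ∑ n ∈ Finset.Icc 1 N,
        (b m * (((m : ℝ) ^ (-σ) : ℝ) : ℂ) * ((starRingEnd ℂ) (b n) * (((n : ℝ) ^ (-σ) : ℝ) : ℂ))) *
          ∫ t in T..2 * T, Complex.exp ((((Real.log n - Real.log m : ℝ) : ℂ) * I) * t) := by
    rw [← intervalIntegral.integral_ofReal]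
    have hc : ∀ m n : ℕ, Continuous fun t : ℝ =>
        (b m * (((m : ℝ) ^ (-σ) : ℝ) : ℂ) * ((starRingEnd ℂ) (b n) * (((n : ℝ) ^ (-σ) : ℝ) : ℂ))) *
          Complex.exp ((((Real.log n - Real.log m : ℝ) : ℂ) * I) * t) := by
      intro m n
      fun_prop
    rw [intervalIntegral.integral_congr (fun t _ => hfun t)]
    rw [intervalIntegral.integral_finset_sum fun m _ =>
      (continuous_finset_sum _ fun n _ => hc m n).intervalIntegrable _ _]
    refine Finset.sum_congr rfl fun m _ => ?_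
    rw [intervalIntegral.integral_finset_sum fun n _ => (hc m n).intervalIntegrable _ _]
    refine Finset.sum_congr rfl fun n _ => ?_
    rw [intervalIntegral.integral_const_mul]
  have hnn : 0 ≤ ∫ t in T..2 * T, ‖∑ n ∈ Finset.Icc 1 N, b n * (n : ℂ) ^ (-((σ : ℂ) + t * I))‖ ^ 2 :=
    intervalIntegral.integral_nonneg (by linarith) fun t _ => by positivity
  have hnorm : ∫ t in T..2 * T, ‖∑ n ∈ Finset.Icc 1 N, b n * (n : ℂ) ^ (-((σ : ℂ) + t * I))‖ ^ 2 =
      ‖((∫ t in T..2 * T, ‖∑ n ∈ Finset.Icc 1 N, b n * (n : ℂ) ^ (-((σ : ℂ) + t * I))‖ ^ 2 : ℝ) : ℂ)‖ := by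
    rw [norm_real, Real.norm_eq_abs, abs_of_nonneg hnn]
  rw [hnorm, hint]
  have hNr : (1 : ℝ) ≤ N := by exact_mod_cast hN
  -- the terms
  have hterm : ∀ m ∈ Finset.Icc 1 N, ∀ n ∈ Finset.Icc 1 N,
      ‖(b m * (((m : ℝ) ^ (-σ) : ℝ) : ℂ) * ((starRingEnd ℂ) (b n) * (((n : ℝ) ^ (-σ) : ℝ) : ℂ))) *
          ∫ t in T..2 * T, Complex.exp ((((Real.log n - Real.log m : ℝ) : ℂ) * I) * t)‖ ≤
        (if m = n then T * (‖b n‖ ^ 2 * (n : ℝ) ^ (-2 * σ)) else 0) + 2 * B ^ 2 * (N : ℝ) ^ 5 := by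
    intro m hm n hn
    obtain ⟨hm1, hm2⟩ := Finset.mem_Icc.1 hm
    obtain ⟨hn1, hn2⟩ := Finset.mem_Icc.1 hn
    have hm0 : (0 : ℝ) < m := by exact_mod_cast hm1
    have hn0 : (0 : ℝ) < n := by exact_mod_cast hn1
    rw [norm_mul, norm_mul, norm_mul, norm_mul, RCLike.norm_conj, norm_real, norm_real, Real.norm_eq_abs,
      Real.norm_eq_abs, abs_of_nonneg (Real.rpow_nonneg hm0.le _), abs_of_nonneg (Real.rpow_nonneg hn0.le _)]
    split_ifs with he
    · subst he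
      have e : ∫ t in T..2 * T, Complex.exp ((((Real.log m - Real.log m : ℝ) : ℂ) * I) * t) = (T : ℂ) := by
        simp only [sub_self, Complex.ofReal_zero, zero_mul, Complex.exp_zero,
          intervalIntegral.integral_const, Complex.real_smul, mul_one]
        push_cast
        ring
      rw [e, norm_real, Real.norm_eq_abs, abs_of_pos hT]
      have e2 : (m : ℝ) ^ (-2 * σ) = (m : ℝ) ^ (-σ) * (m : ℝ) ^ (-σ) := by
        rw [← Real.rpow_add hm0]
        congr 1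
        ring
      rw [e2]
      have : 0 ≤ 2 * B ^ 2 * (N : ℝ) ^ 5 := by positivity
      nlinarith
    · have hsep := MSX.log_sep hm1 hn1 hm2 hn2 he
      have hne : Real.log n - Real.log m ≠ 0 := by
        intro h0
        rw [h0, abs_zero] at hsep
        have : 0 < 1 / (N : ℝ) := by positivity
        linarith
      have hi := MSX.int_exp hne T (2 * T)
      have hi2 : 2 / |Real.log n - Real.log m| ≤ 2 * N := by
        rw [div_le_iff₀ (abs_pos.2 hne)]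
        have h3 : (N : ℝ) * (1 / N) ≤ N * |Real.log n - Real.log m| := by gcongr
        rw [mul_one_div_cancel (by positivity)] at h3
        linarith
      have hp : ∀ k : ℕ, 1 ≤ k → k ≤ N → ‖b k‖ * (k : ℝ) ^ (-σ) ≤ B * (N : ℝ) ^ 2 := by
        intro k hk hkN
        have hk1 : (1 : ℝ) ≤ k := by exact_mod_cast hk
        have hkN' : (k : ℝ) ≤ N := by exact_mod_cast hkN
        have h4 : (k : ℝ) ^ (-σ) ≤ k := by
          calc (k : ℝ) ^ (-σ) ≤ (k : ℝ) ^ (1 : ℝ) := Real.rpow_le_rpow_of_exponent_le hk1 (by linarith)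
            _ = k := Real.rpow_one _
        calc ‖b k‖ * (k : ℝ) ^ (-σ) ≤ (B * k) * k := by
              gcongr
              exact hb k
          _ = B * (k : ℝ) ^ 2 := by ring
          _ ≤ B * (N : ℝ) ^ 2 := by gcongr
      rw [zero_add]
      calc _ ≤ (B * (N : ℝ) ^ 2) * (B * (N : ℝ) ^ 2) * (2 * N) := by
            have q1 := hp m hm1 hm2
            have q2 := hp n hn1 hn2
            gcongr
            exact hi.trans hi2
        _ = 2 * B ^ 2 * (N : ℝ) ^ 5 := by ring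
  refine (norm_sum_le _ _).trans ?_
  refine (Finset.sum_le_sum fun m hm => (norm_sum_le _ _).trans (Finset.sum_le_sum fun n hn =>
    hterm m hm n hn)).trans ?_
  simp only [Finset.sum_add_distrib, Finset.sum_const, Nat.card_Icc, Nat.add_sub_cancel, nsmul_eq_mul]
  have e5 : ∑ m ∈ Finset.Icc 1 N, ∑ n ∈ Finset.Icc 1 N,
      (if m = n then T * (‖b n‖ ^ 2 * (n : ℝ) ^ (-2 * σ)) else 0) =
      T * ∑ n ∈ Finset.Icc 1 N, ‖b n‖ ^ 2 * (n : ℝ) ^ (-2 * σ) := by
    rw [Finset.mul_sum]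
    refine Finset.sum_congr rfl fun m hm => ?_
    rw [Finset.sum_ite_eq]
    rw [if_pos hm]
  rw [e5]
  have e6 : (N : ℝ) * (N * (2 * B ^ 2 * (N : ℝ) ^ 5)) = 2 * B ^ 2 * (N : ℝ) ^ 7 := by ring
  have e7 : 2 * B ^ 2 * (N : ℝ) ^ 7 ≤ 2 * B ^ 2 * (N : ℝ) ^ 9 := by
    have := pow_le_pow_right₀ hNr (by norm_num : 7 ≤ 9)
    gcongr
  linarith

end Pool.Agent.K6.H88.CM
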