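import Pool.Agent.K6.H88.CM.Mv
import Pool.Agent.W613.MO.ZA

/-!
# The main theorem (helper88, project CM)
-/

set_option autoImplicit false
set_option linter.all false

open Filter Topology Complex MeasureTheory Metric

namespace Pool.Agent.K6.H88.CM

theorem IsCM.pow {f : ℕ → ℂ} (hf : IsCM f) {n : ℕ} (hn : 0 < n) (k : ℕ) : f (n ^ k) = f n ^ k := by
  induction k with
  | zero => rw [pow_zero, pow_zero, hf.one]
  | succ k ih => rw [pow_succ, pow_succ, hf.mul _ _ (pow_pos hn k) hn, ih]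

theorem norm_f_le {f : ℕ → ℂ} {θ C : ℝ} (hθ : 0 < θ) (hD : Dec f θ C) {n : ℕ} (hn : 2 ≤ n) :
    ‖f n‖ ≤ 2 * C * ((n : ℝ) - 1) ^ (-θ) := by
  have h1 : f n = PS f n - PS f (n - 1) := by
    unfold PS
    obtain ⟨m, rfl⟩ : ∃ m, n = m + 1 := ⟨n - 1, by omega⟩
    rw [Nat.add_sub_cancel, Finset.sum_Icc_succ_top (by omega)]
    ring
  have h2 := hD n (by omega)
  have h3 := hD (n - 1) (by omega)
  have hC : 0 ≤ C := by
    have := (norm_nonneg _).trans (hD 1 one_pos)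
    simpa using this
  have e : ((n - 1 : ℕ) : ℝ) = (n : ℝ) - 1 := by
    rw [Nat.cast_sub (by omega), Nat.cast_one]
  rw [e] at h3
  have hn1 : (1 : ℝ) ≤ (n : ℝ) - 1 := by
    have : (2 : ℝ) ≤ n := by exact_mod_cast hn
    linarith
  have h4 : (n : ℝ) ^ (-θ) ≤ ((n : ℝ) - 1) ^ (-θ) :=
    Real.rpow_le_rpow_of_nonpos (by linarith) (by linarith) (by linarith)
  rw [h1]
  calc ‖PS f n - PS f (n - 1)‖ ≤ ‖PS f n‖ + ‖PS f (n - 1)‖ := norm_sub_le _ _
    _ ≤ C * ((n : ℝ) - 1) ^ (-θ) + C * ((n : ℝ) - 1) ^ (-θ) :=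
        add_le_add (h2.trans (mul_le_mul_of_nonneg_left h4 hC)) h3
    _ = _ := by ring

theorem norm_lt_one {f : ℕ → ℂ} {θ C : ℝ} (hf : IsCM f) (hθ : 0 < θ) (hD : Dec f θ C) {n : ℕ}
    (hn : 2 ≤ n) : ‖f n‖ < 1 := by
  have ht : Tendsto (fun k : ℕ => ‖f n‖ ^ k) atTop (𝓝 0) := by
    have h1 : ∀ k : ℕ, 1 ≤ k → ‖f n‖ ^ k ≤ 2 * C * (((n ^ k : ℕ) : ℝ) - 1) ^ (-θ) := by
      intro k hk
      rw [← norm_pow, ← hf.pow (by omega)]
      refine norm_f_le hθ hD ?_
      calc 2 ≤ n := hn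
        _ = n ^ 1 := (pow_one n).symm
        _ ≤ n ^ k := Nat.pow_le_pow_right (by omega) hk
    have h2 : Tendsto (fun k : ℕ => 2 * C * (((n ^ k : ℕ) : ℝ) - 1) ^ (-θ)) atTop (𝓝 0) := by
      have h3 : Tendsto (fun k : ℕ => ((n ^ k : ℕ) : ℝ) - 1) atTop atTop := by
        refine tendsto_atTop_add_const_right _ _ ?_
        exact tendsto_natCast_atTop_atTop.comp (tendsto_pow_atTop_atTop_of_one_lt (by omega))
      have h4 := (tendsto_rpow_neg_atTop hθ).comp h3
      have h5 := h4.const_mul (2 * C)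
      rw [mul_zero] at h5
      exact h5
    refine squeeze_zero' (Filter.Eventually.of_forall fun k => by positivity) ?_ h2
    filter_upwards [eventually_ge_atTop 1] with k hk
    exact h1 k hk
  by_contra hge
  push Not at hge
  have h1 : ∀ k : ℕ, 1 ≤ ‖f n‖ ^ k := fun k => one_le_pow₀ hge
  exact absurd (ge_of_tendsto' ht h1) (by norm_num)

/-- the function, zero at zero -/
noncomputable def z0 (f : ℕ → ℂ) (n : ℕ) : ℂ := if n = 0 then 0 else f n

theorem z0_cm {f : ℕ → ℂ} (hf : IsCM f) : IsCM (z0 f) := by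
  refine ⟨by simp [z0, hf.one], fun m n hm hn => ?_⟩
  have h1 : m * n ≠ 0 := (Nat.mul_pos hm hn).ne'
  simp only [z0, h1, hm.ne', hn.ne', if_false]
  exact hf.mul m n hm hn

theorem z0_le {f : ℕ → ℂ} {θ C : ℝ} (hf : IsCM f) (hθ : 0 < θ) (hD : Dec f θ C) (n : ℕ) :
    ‖z0 f n‖ ≤ 1 := by
  rcases Nat.lt_or_ge n 2 with h | h
  · interval_cases n
    · simp [z0]
    · simp [z0, hf.one]
  · have h1 : n ≠ 0 := by omega
    simp only [z0, h1, if_false]
    exact (norm_lt_one hf hθ hD h).le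

theorem ls_eq {f : ℕ → ℂ} {F : ℂ → ℂ} {s : ℂ} (hs : 1 < s.re) (hb : ∀ n, ‖z0 f n‖ ≤ 1)
    (hF : Tendsto (DS f s) atTop (𝓝 (F s))) : F s = LSeries (z0 f) s := by
  have hsum : LSeriesSummable (z0 f) s :=
    LSeriesSummable_of_bounded_of_one_lt_re (m := 1) (fun n _ => hb n) hs
  have h1 : Tendsto (fun N : ℕ => ∑ n ∈ Finset.range (N + 1), LSeries.term (z0 f) s n) atTop
      (𝓝 (LSeries (z0 f) s)) := (hsum.hasSum.tendsto_sum_nat).comp (tendsto_add_atTop_nat 1)
  refine tendsto_nhds_unique hF (h1.congr fun N => ?_)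
  rw [Finset.sum_range_succ', LSeries.term_zero, add_zero]
  unfold DS
  induction N with
  | zero => simp
  | succ N ih =>
    rw [Finset.sum_range_succ, Finset.sum_Icc_succ_top (by omega), ih, LSeries.term_of_ne_zero (by omega),
      cpow_neg, div_eq_mul_inv]
    congr 1

theorem four_lower {f : ℕ → ℂ} (hf : IsCM f) (hb : ∀ n, ‖z0 f n‖ ≤ 1) {s : ℂ} (hs : s.re = 4) :
    1 / 2 ≤ ‖LSeries (z0 f) s‖ := by
  have hsum : LSeriesSummable (z0 f) s :=
    LSeriesSummable_of_bounded_of_one_lt_re (m := 1) (fun n _ => hb n) (by rw [hs]; norm_num)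
  have h1 : ∀ n : ℕ, ‖LSeries.term (z0 f) s n‖ ≤ 1 / (n : ℝ) ^ 4 := by
    intro n
    rcases Nat.eq_zero_or_pos n with h0 | h0
    · rw [h0, LSeries.term_zero]
      simp
    · rw [LSeries.term_of_ne_zero h0.ne', norm_div, Complex.norm_natCast_cpow_of_pos h0, hs]
      have e : (n : ℝ) ^ (4 : ℝ) = (n : ℝ) ^ 4 := by norm_cast
      rw [e]
      gcongr
      exact hb n
  have hz := hasSum_zeta_four
  have h2 : LSeries (z0 f) s = LSeries.term (z0 f) s 1 + ∑' n : ℕ, LSeries.term (z0 f) s (n + 2) := by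
    unfold LSeries
    have h3 := hsum.sum_add_tsum_nat_add 2
    rw [← h3]
    simp [Finset.sum_range_succ]
  have h3 : LSeries.term (z0 f) s 1 = 1 := by
    rw [LSeries.term_of_ne_zero one_ne_zero]
    simp [z0, hf.one]
  have h4 : ‖∑' n : ℕ, LSeries.term (z0 f) s (n + 2)‖ ≤ ∑' n : ℕ, 1 / ((n + 2 : ℕ) : ℝ) ^ 4 := by
    refine (norm_tsum_le_tsum_norm ?_).trans ?_
    · exact (summable_nat_add_iff 2).2 hsum.norm
    · exact Summable.tsum_le_tsum (fun n => h1 (n + 2)) ((summable_nat_add_iff 2).2 hsum.norm)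
        ((summable_nat_add_iff 2).2 hz.summable)
  have h5 : ∑' n : ℕ, 1 / ((n + 2 : ℕ) : ℝ) ^ 4 = Real.pi ^ 4 / 90 - 1 := by
    have h6 := hz.summable.sum_add_tsum_nat_add 2
    rw [hz.tsum_eq] at h6
    rw [← h6]
    simp [Finset.sum_range_succ]
  have hpi : Real.pi ^ 4 / 90 - 1 ≤ 1 / 2 := by
    have h7 : Real.pi ≤ 3.15 := Real.pi_lt_d2.le
    have h8 : Real.pi ^ 4 ≤ 3.15 ^ 4 := pow_le_pow_left₀ Real.pi_pos.le h7 4
    norm_num at h8
    linarith
  rw [h2, h3]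
  have h9 : ‖(1 : ℂ)‖ ≤ ‖(1 : ℂ) + ∑' n : ℕ, LSeries.term (z0 f) s (n + 2)‖ +
      ‖∑' n : ℕ, LSeries.term (z0 f) s (n + 2)‖ := by
    have := norm_sub_le ((1 : ℂ) + ∑' n : ℕ, LSeries.term (z0 f) s (n + 2))
      (∑' n : ℕ, LSeries.term (z0 f) s (n + 2))
    rwa [add_sub_cancel_right] at this
  rw [norm_one] at h9
  linarith

theorem main (hC : S_CONT) (hE : S_END) (hL : S_LOG) (hMS : S_MS) (hVK : S_VK) {f : ℕ → ℂ}
    {θ C δ : ℝ} (hf : IsCM f) (hθ : 1 / 2 < θ) (hD : Dec f θ C) (hδ : 0 < δ) (hδ1 : δ ≤ 1 / 4)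
    (hδ2 : 1 / 2 + δ < θ) (T₀ : ℝ) :
    ∃ s : ℂ, T₀ < s.im ∧ -1 / 2 - δ < s.re ∧ Tendsto (DS f s) atTop (𝓝 0) := by
  by_contra hno
  push Not at hno
  have hθ0 : 0 < θ := by linarith
  obtain ⟨F, hFd, hFt, hFb⟩ := hC f θ C hθ0 hD
  have hb := z0_le hf hθ0 hD
  have hcm := z0_cm hf
  -- no zeros
  have hnz : ∀ s : ℂ, -1 / 2 - δ < s.re → T₀ < s.im → F s ≠ 0 := by
    intro s h1 h2 h0
    refine hno s h2 h1 ?_
    have h3 := hFt s (by linarith)
    rwa [h0] at h3
  have hopen : IsOpen {s : ℂ | -θ < s.re} := isOpen_lt continuous_const continuous_re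
  have hFa : ∀ s : ℂ, -θ < s.re → AnalyticAt ℂ F s := fun s hs => hFd.analyticAt (hopen.mem_nhds hs)
  obtain ⟨K', hK'⟩ := hFb (θ - 1 / 2 - 3 / 4 * δ) (by linarith)
  obtain ⟨K, hK⟩ : ∃ K, K = max K' 1 := ⟨_, rfl⟩
  have hK1 : 1 ≤ K := by rw [hK]; exact le_max_right _ _
  have hKb : ∀ s : ℂ, -1 / 2 - 3 / 4 * δ ≤ s.re → ‖F s‖ ≤ K * (1 + ‖s‖) := by
    intro s hs
    refine (hK' s (by linarith)).trans ?_
    rw [hK]
    have := norm_nonneg s
    gcongr
    exact le_max_left _ _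
  have hLS : ∀ s : ℂ, 1 < s.re → F s = LSeries (z0 f) s := fun s hs =>
    ls_eq hs hb (hFt s (by linarith))
  obtain ⟨T₁, hT₁⟩ : ∃ T₁, T₁ = max (T₀ + 6) (24 * K) := ⟨_, rfl⟩
  have hT₁a : T₀ + 6 ≤ T₁ := by rw [hT₁]; exact le_max_left _ _
  have hT₁b : 24 * K ≤ T₁ := by rw [hT₁]; exact le_max_right _ _
  -- the bound of the logarithmic derivative
  have hld : ∀ s : ℂ, -1 / 2 - δ / 2 ≤ s.re → s.re ≤ 4 → T₁ < s.im →
      ‖deriv F s / F s‖ ≤ (32 * (9 / 2 + 3 / 4 * δ) / (δ / 4) ^ 2) * Real.log s.im := by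
    intro s h1 h2 h3
    have ht0 : 24 ≤ s.im := by linarith
    obtain ⟨c, hc⟩ : ∃ c : ℂ, c = 4 + (s.im : ℂ) * I := ⟨_, rfl⟩
    have hcre : c.re = 4 := by rw [hc]; simp
    have hcim : c.im = s.im := by rw [hc]; simp
    have hball : ∀ z ∈ ball c (9 / 2 + 3 / 4 * δ), -1 / 2 - 3 / 4 * δ < z.re ∧ T₀ < z.im ∧
        ‖z‖ ≤ s.im + 10 := by
      intro z hz
      rw [mem_ball, dist_eq_norm] at hz
      have a1 := (abs_re_le_norm (z - c)).trans_lt hz
      have a2 := (abs_im_le_norm (z - c)).trans_lt hz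
      rw [sub_re, hcre, abs_lt] at a1
      rw [sub_im, hcim, abs_lt] at a2
      refine ⟨by linarith [a1.1], by linarith [a2.1], ?_⟩
      have a3 : ‖z‖ ≤ ‖z - c‖ + ‖c‖ := by
        have := norm_add_le (z - c) c
        rwa [sub_add_cancel] at this
      have a4 : ‖c‖ ≤ 4 + s.im := by
        rw [hc]
        refine (norm_add_le _ _).trans ?_
        rw [norm_mul, norm_I, mul_one, norm_real, Real.norm_eq_abs, abs_of_nonneg (by linarith)]
        have : ‖(4 : ℂ)‖ = 4 := by simp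
        rw [this]
      linarith
    have hFc : 1 / 2 ≤ ‖F c‖ := by
      rw [hLS c (by rw [hcre]; norm_num)]
      exact four_lower hf hb hcre
    have hlog0 : 0 < Real.log s.im := Real.log_pos (by linarith)
    have h := Pool.Agent.W613.MO.logDeriv_zero_free (g := F) (c := c) (r := 9 / 2 + 3 / 4 * δ)
      (r2 := 9 / 2 + δ / 2) (B := 2 * Real.log s.im) (by positivity) (by positivity) (by linarith)
      (by positivity) (fun z hz => hFa z (by linarith [(hball z hz).1]))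
      (fun z hz => hnz z (by linarith [(hball z hz).1]) (hball z hz).2.1) (fun z hz => by
        have a1 := hKb z (hball z hz).1.le
        have a2 := (hball z hz).2.2
        have a3 : Real.exp (2 * Real.log s.im) = s.im ^ 2 := by
          rw [two_mul, Real.exp_add, Real.exp_log (by linarith), pow_two]
        rw [a3]
        have a4 : K * (1 + ‖z‖) ≤ K * (2 * s.im) := by
          gcongr
          linarith
        have a5 : s.im ^ 2 * (1 / 2) ≤ s.im ^ 2 * ‖F c‖ := by gcongr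
        have a6 : K * (2 * s.im) ≤ s.im ^ 2 * (1 / 2) := by nlinarith
        linarith) (z := s) (by
        rw [mem_closedBall, dist_eq_norm]
        have e : s - c = ((s.re - 4 : ℝ) : ℂ) := by
          apply Complex.ext <;> simp [hc]
        rw [e, norm_real, Real.norm_eq_abs, abs_le]
        constructor <;> linarith)
    refine h.trans (le_of_eq ?_)
    have e1 : (9 / 2 + 3 / 4 * δ) - (9 / 2 + δ / 2) = δ / 4 := by ring
    rw [e1]
    ring
  -- the mean value theorem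
  obtain ⟨b, hbd⟩ : ∃ b : ℕ → ℂ, b = fun n => z0 f n * (ArithmeticFunction.vonMangoldt n : ℂ) := ⟨_, rfl⟩
  have hbn : ∀ n, ‖b n‖ ≤ 1 * (n : ℝ) := by
    intro n
    rw [hbd, one_mul]
    simp only [norm_mul, norm_real, Real.norm_eq_abs]
    rw [abs_of_nonneg ArithmeticFunction.vonMangoldt_nonneg]
    calc ‖z0 f n‖ * ArithmeticFunction.vonMangoldt n ≤ 1 * Real.log n :=
          mul_le_mul (hb n) ArithmeticFunction.vonMangoldt_le_log ArithmeticFunction.vonMangoldt_nonneg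
            zero_le_one
      _ ≤ n := by
        rw [one_mul]
        rcases Nat.eq_zero_or_pos n with h0 | h0
        · rw [h0]; simp
        · have h1 : (0 : ℝ) < n := by exact_mod_cast h0
          linarith [Real.log_le_sub_one_of_pos h1]
  have hb0 : b 0 = 0 := by rw [hbd]; simp [z0]
  obtain ⟨K₂, hK₂⟩ := mv hMS hVK (b := b) (G := fun s => -deriv F s / F s) (B := 1)
    (σ := -1 / 2 - δ / 4) (σ' := -1 / 2 - δ / 2) (T₀ := T₁)
    (A := 32 * (9 / 2 + 3 / 4 * δ) / (δ / 4) ^ 2) (by linarith) (by linarith) (by linarith) zero_le_one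
    hb0 hbn (by positivity) (by
      intro s hs
      have h1 : AnalyticAt ℂ F s := hFa s (by linarith [hs.1])
      have h2 : F s ≠ 0 := hnz s (by linarith [hs.1]) (by linarith [hs.2])
      exact (h1.deriv.neg.div h1 h2).differentiableAt.differentiableWithinAt)
    (fun s h1 h2 h3 => by
      have := hld s (by linarith) h2 h3
      rwa [neg_div, norm_neg])
    (fun t ht => by
      have hre : ((4 : ℂ) + t * I).re = 4 := by simp
      have h1 : 1 < ((4 : ℂ) + t * I).re := by rw [hre]; norm_num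
      obtain ⟨hs1, hs2, hs3⟩ := hL (z0 f) hcm (by simp [z0]) hb _ h1
      have h2 : F =ᶠ[𝓝 ((4 : ℂ) + t * I)] LSeries (z0 f) := by
        filter_upwards [(isOpen_lt continuous_const continuous_re).mem_nhds h1] with z hz
        exact hLS z hz
      change -deriv F _ / F _ = _
      rw [h2.deriv_eq, h2.eq_of_nhds, ← hs3]
      unfold LSeries
      refine tsum_congr fun n => ?_
      rcases Nat.eq_zero_or_pos n with h0 | h0
      · rw [h0, LSeries.term_zero, hb0, zero_mul]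
      · rw [LSeries.term_of_ne_zero h0.ne', cpow_neg, div_eq_mul_inv, hbd])
  -- the primes
  have hPS : Tendsto (PS f) atTop (𝓝 0) := by
    have h1 : Tendsto (fun N : ℕ => C * (N : ℝ) ^ (-θ)) atTop (𝓝 0) := by
      have h2 := ((tendsto_rpow_neg_atTop hθ0).comp tendsto_natCast_atTop_atTop).const_mul C
      rw [mul_zero] at h2
      exact h2
    refine squeeze_zero_norm' ?_ h1
    filter_upwards [eventually_ge_atTop 1] with N hN
    exact hD N hN
  refine hE f (δ / 2) (K₂ / Real.log 2 ^ 2) hf (fun p hp => norm_lt_one hf hθ0 hD hp.two_le)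
    (by positivity) ?_ hPS
  filter_upwards [hK₂] with N hN
  have hl2 : 0 < Real.log 2 := Real.log_pos (by norm_num)
  rw [div_mul_eq_mul_div, le_div_iff₀ (by positivity)]
  refine le_trans ?_ hN
  rw [Finset.sum_mul]
  calc ∑ p ∈ (Finset.Icc 1 N).filter Nat.Prime, ‖f p‖ ^ 2 * (p : ℝ) ^ (1 + δ / 2) * Real.log 2 ^ 2
      ≤ ∑ p ∈ (Finset.Icc 1 N).filter Nat.Prime, ‖b p‖ ^ 2 * (p : ℝ) ^ (-2 * (-1 / 2 - δ / 4)) := by
        refine Finset.sum_le_sum fun p hp => ?_
        have hp' := (Finset.mem_filter.1 hp).2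
        have e1 : (-2 * (-1 / 2 - δ / 4) : ℝ) = 1 + δ / 2 := by ring
        have e2 : ‖b p‖ = ‖f p‖ * Real.log p := by
          rw [hbd]
          simp only [norm_mul, norm_real, Real.norm_eq_abs]
          rw [ArithmeticFunction.vonMangoldt_apply_prime hp', abs_of_nonneg
            (Real.log_nonneg (by exact_mod_cast hp'.one_lt.le))]
          simp [z0, hp'.ne_zero]
        rw [e1, e2]
        have h3 : Real.log 2 ≤ Real.log p := Real.log_le_log (by norm_num) (by exact_mod_cast hp'.two_le)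
        calc ‖f p‖ ^ 2 * (p : ℝ) ^ (1 + δ / 2) * Real.log 2 ^ 2
            ≤ ‖f p‖ ^ 2 * (p : ℝ) ^ (1 + δ / 2) * Real.log p ^ 2 := by gcongr
          _ = _ := by ring
    _ ≤ _ := Finset.sum_le_sum_of_subset_of_nonneg (Finset.filter_subset _ _)
        (fun n _ _ => by positivity)

end Pool.Agent.K6.H88.CM
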