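import Pool.Agent.K6.H88.CM.Stm

/-!
# The mean value argument (helper88, project CM)
-/

set_option autoImplicit false
set_option linter.all false

open Filter Topology Complex MeasureTheory

namespace Pool.Agent.K6.H88.CM

section

variable (b : ℕ → ℂ) (σ : ℝ) (N : ℕ)

/-- the test polynomial -/
noncomputable def TP (s : ℂ) : ℂ :=
  ∑ n ∈ Finset.Icc 1 N, (starRingEnd ℂ) (b n) * (n : ℂ) ^ (-2 * (σ : ℂ)) * (n : ℂ) ^ s

theorem tp_diff : Differentiable ℂ (TP b σ N) := by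
  unfold TP
  refine Differentiable.fun_sum fun n hn => ?_
  have hn0 : (n : ℂ) ≠ 0 := by
    have := (Finset.mem_Icc.1 hn).1
    exact_mod_cast (by omega : n ≠ 0)
  exact (differentiable_const _).mul (fun s => (differentiableAt_id.const_cpow (Or.inl hn0)))

theorem tp_bound {B : ℝ} (hB : 0 ≤ B) (hb : ∀ n, ‖b n‖ ≤ B * n) (h1 : -1 ≤ σ) {s : ℂ}
    (hs : s.re ≤ 4) (hN : 1 ≤ N) : ‖TP b σ N s‖ ≤ B * (N : ℝ) ^ 8 := by
  unfold TP
  refine (norm_sum_le _ _).trans ?_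
  have key : ∀ n ∈ Finset.Icc 1 N, ‖(starRingEnd ℂ) (b n) * (n : ℂ) ^ (-2 * (σ : ℂ)) * (n : ℂ) ^ s‖ ≤
      B * (N : ℝ) ^ 7 := by
    intro n hn
    obtain ⟨hn1, hn2⟩ := Finset.mem_Icc.1 hn
    have hn0 : 0 < n := by omega
    have e : (-2 * (σ : ℂ)) = ((-2 * σ : ℝ) : ℂ) := by push_cast; ring
    rw [norm_mul, norm_mul, RCLike.norm_conj, Complex.norm_natCast_cpow_of_pos hn0,
      Complex.norm_natCast_cpow_of_pos hn0, e, Complex.ofReal_re]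
    have hn1' : (1 : ℝ) ≤ n := by exact_mod_cast hn1
    have a1 : (n : ℝ) ^ (-2 * σ) ≤ (n : ℝ) ^ (2 : ℝ) :=
      Real.rpow_le_rpow_of_exponent_le hn1' (by linarith)
    have a2 : (n : ℝ) ^ s.re ≤ (n : ℝ) ^ (4 : ℝ) := Real.rpow_le_rpow_of_exponent_le hn1' hs
    have e2 : (n : ℝ) ^ (2 : ℝ) = (n : ℝ) ^ 2 := by norm_cast
    have e4 : (n : ℝ) ^ (4 : ℝ) = (n : ℝ) ^ 4 := by norm_cast
    rw [e2] at a1
    rw [e4] at a2
    have hnN : (n : ℝ) ≤ N := by exact_mod_cast hn2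
    calc ‖b n‖ * (n : ℝ) ^ (-2 * σ) * (n : ℝ) ^ s.re ≤ (B * n) * (n : ℝ) ^ 2 * (n : ℝ) ^ 4 := by
          gcongr
          exact hb n
      _ = B * (n : ℝ) ^ 7 := by ring
      _ ≤ B * (N : ℝ) ^ 7 := by gcongr
  refine (Finset.sum_le_sum key).trans ?_
  rw [Finset.sum_const, Nat.card_Icc, nsmul_eq_mul]
  have : ((N + 1 - 1 : ℕ) : ℝ) = N := by simp
  rw [this]
  apply le_of_eq
  ring

theorem tp_norm (t : ℝ) : ‖TP b σ N ((σ : ℂ) + t * I)‖ =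
    ‖∑ n ∈ Finset.Icc 1 N, b n * (n : ℂ) ^ (-((σ : ℂ) + t * I))‖ := by
  rw [← RCLike.norm_conj]
  congr 1
  unfold TP
  rw [map_sum]
  refine Finset.sum_congr rfl fun n hn => ?_
  have hn0 : 0 < n := by have := (Finset.mem_Icc.1 hn).1; omega
  have hn0' : (n : ℂ) ≠ 0 := by exact_mod_cast hn0.ne'
  have harg : Complex.arg (n : ℂ) ≠ Real.pi := by
    rw [Complex.natCast_arg]
    exact Real.pi_ne_zero.symm
  have hc : ∀ w : ℂ, (starRingEnd ℂ) ((n : ℂ) ^ w) = (n : ℂ) ^ ((starRingEnd ℂ) w) := by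
    intro w
    rw [Complex.cpow_conj _ _ harg, Complex.conj_natCast]
  rw [map_mul, map_mul, Complex.conj_conj, mul_assoc, hc, hc, ← Complex.cpow_add _ _ hn0']
  congr 2
  simp only [map_mul, map_neg, map_add, Complex.conj_ofReal, Complex.conj_I, map_ofNat]
  ring

end

theorem mv (hMS : S_MS) (hVK : S_VK) {b : ℕ → ℂ} {G : ℂ → ℂ} {B σ σ' T₀ A : ℝ} (h1 : -1 ≤ σ)
    (h2 : σ ≤ 0) (hs : σ' < σ) (hB : 0 ≤ B) (hb0 : b 0 = 0) (hb : ∀ n : ℕ, ‖b n‖ ≤ B * n)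
    (hA : 0 < A) (hG : DifferentiableOn ℂ G {s | σ' < s.re ∧ T₀ < s.im})
    (hGb : ∀ s : ℂ, σ ≤ s.re → s.re ≤ 4 → T₀ < s.im → ‖G s‖ ≤ A * Real.log s.im)
    (hG4 : ∀ t : ℝ, T₀ < t → G (4 + t * I) = ∑' m : ℕ, b m * (m : ℂ) ^ (-((4 : ℂ) + t * I))) :
    ∃ K : ℝ, ∀ᶠ N : ℕ in atTop, ∑ n ∈ Finset.Icc 1 N, ‖b n‖ ^ 2 * (n : ℝ) ^ (-2 * σ) ≤
      K * Real.log N ^ 2 := by
  obtain ⟨K₀, hK₀, hVK⟩ := hVK
  refine ⟨2 * (K₀ + 1) * B ^ 2 + (21 * A) ^ 2 + 420 * A * B, ?_⟩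
  filter_upwards [eventually_ge_atTop 3, eventually_ge_atTop (⌈T₀⌉₊ + 1)] with N hN3 hNT
  have hN1 : 1 ≤ N := by omega
  have hNr : (3 : ℝ) ≤ N := by exact_mod_cast hN3
  obtain ⟨T, hT⟩ : ∃ T : ℝ, T = (N : ℝ) ^ 20 := ⟨_, rfl⟩
  have hNT' : (N : ℝ) ≤ T := by
    rw [hT]
    calc (N : ℝ) = (N : ℝ) ^ 1 := (pow_one _).symm
      _ ≤ (N : ℝ) ^ 20 := pow_le_pow_right₀ (by linarith) (by norm_num)
  have hTT : T₀ < T := by
    have h3 : T₀ ≤ ⌈T₀⌉₊ := Nat.le_ceil T₀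
    have h4 : ((⌈T₀⌉₊ + 1 : ℕ) : ℝ) ≤ N := by exact_mod_cast hNT
    push_cast at h4
    linarith
  have hT0 : 0 < T := by linarith
  have hT1 : 1 ≤ T := by linarith
  obtain ⟨V, hV⟩ : ∃ V, V = ∑ n ∈ Finset.Icc 1 N, ‖b n‖ ^ 2 * (n : ℝ) ^ (-2 * σ) := ⟨_, rfl⟩
  rw [← hV]
  have hV0 : 0 ≤ V := by
    rw [hV]
    exact Finset.sum_nonneg fun n _ => by positivity
  have hMS1 := hMS b B σ h1 h2 hB hb N T hN1 hT0
  have hVK1 := hVK b B σ h1 h2 hB hb0 hb N T hN1 hT0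
  rw [← hV] at hMS1 hVK1
  -- the logarithm
  obtain ⟨ℓ, hℓ⟩ : ∃ ℓ, ℓ = Real.log (2 * T) := ⟨_, rfl⟩
  have hlogN : 1 ≤ Real.log N := by
    rw [Real.le_log_iff_exp_le (by linarith)]
    have := Real.exp_one_lt_d9
    linarith
  have hℓ1 : ℓ ≤ 21 * Real.log N := by
    rw [hℓ, Real.log_mul (by norm_num) hT0.ne', hT, Real.log_pow]
    have h3 : Real.log 2 ≤ Real.log N := Real.log_le_log (by norm_num) (by linarith)
    push_cast
    linarith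
  have hℓ0 : 0 ≤ ℓ := by
    rw [hℓ]
    exact Real.log_nonneg (by linarith)
  have hGA : ∀ s : ℂ, σ ≤ s.re → s.re ≤ 4 → T ≤ s.im → s.im ≤ 2 * T → ‖G s‖ ≤ A * ℓ := by
    intro s a1 a2 a3 a4
    refine (hGb s a1 a2 (by linarith)).trans ?_
    rw [hℓ]
    exact mul_le_mul_of_nonneg_left (Real.log_le_log (by linarith) a4) hA.le
  -- the contour
  have hrect := Complex.integral_boundary_rect_eq_zero_of_differentiableOn
    (fun s => G s * TP b σ N s) ((σ : ℂ) + T * I) ((4 : ℂ) + (2 * T : ℝ) * I) (by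
      refine (hG.mono ?_).mul (tp_diff b σ N).differentiableOn
      intro s hs'
      rw [Complex.mem_reProdIm] at hs'
      simp only [add_re, ofReal_re, mul_re, I_re, mul_zero, ofReal_im, I_im, mul_one, sub_self, add_zero,
        add_im, mul_im, zero_add] at hs'
      obtain ⟨hr, hi⟩ := hs'
      rw [Set.uIcc_of_le (by norm_num; linarith)] at hr
      rw [Set.uIcc_of_le (by simp; linarith)] at hi
      exact ⟨by linarith [hr.1], lt_of_lt_of_le hTT (by simpa using hi.1)⟩)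
  simp only [add_re, ofReal_re, mul_re, I_re, mul_zero, ofReal_im, I_im, mul_one, sub_self, add_zero,
        add_im, mul_im, zero_add, smul_eq_mul] at hrect
  have e4r : (4 : ℂ).re = 4 := by simp
  have e4i : (4 : ℂ).im = 0 := by simp
  rw [e4r, e4i, zero_add] at hrect
  have e4c : (((4 : ℝ) : ℂ)) = 4 := by norm_num
  simp only [e4c] at hrect
  -- horizontal integrals
  have hhor : ∀ y : ℝ, T ≤ y → y ≤ 2 * T →
      ‖∫ x in σ..4, G ((x : ℂ) + (y : ℂ) * I) * TP b σ N ((x : ℂ) + (y : ℂ) * I)‖ ≤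
        5 * (A * ℓ * (B * (N : ℝ) ^ 8)) := by
    intro y hy1 hy2
    refine (intervalIntegral.norm_integral_le_of_norm_le_const (C := A * ℓ * (B * (N : ℝ) ^ 8)) ?_).trans ?_
    · intro x hx
      rw [Set.uIoc_of_le (by linarith)] at hx
      rw [norm_mul]
      have b1 : ((x : ℂ) + (y : ℂ) * I).re = x := by simp
      have b2 : ((x : ℂ) + (y : ℂ) * I).im = y := by simp
      refine mul_le_mul (hGA _ (by rw [b1]; exact hx.1.le) (by rw [b1]; exact hx.2) (by rw [b2]; exact hy1)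
        (by rw [b2]; exact hy2)) (tp_bound b σ N hB hb h1 (by rw [b1]; exact hx.2) hN1) (norm_nonneg _)
        (by positivity)
    · rw [mul_comm]
      have : |4 - σ| ≤ 5 := by rw [abs_of_nonneg (by linarith)]; linarith
      gcongr
  -- the left side
  have hcont : Continuous fun t : ℝ => ‖∑ n ∈ Finset.Icc 1 N, b n * (n : ℂ) ^ (-((σ : ℂ) + t * I))‖ := by
    have h3 : Continuous fun t : ℝ => ‖TP b σ N ((σ : ℂ) + t * I)‖ := by
      refine ((tp_diff b σ N).continuous.comp ?_).norm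
      fun_prop
    simpa only [tp_norm] using h3
  have hleft : ‖∫ y in T..2 * T, G ((σ : ℂ) + (y : ℂ) * I) * TP b σ N ((σ : ℂ) + (y : ℂ) * I)‖ ≤
      1 / 2 * (T * V + 2 * B ^ 2 * (N : ℝ) ^ 9) + 1 / 2 * (A * ℓ) ^ 2 * T := by
    have hle : T ≤ 2 * T := by linarith
    have hc2 : Continuous fun y : ℝ =>
        1 / 2 * ‖∑ n ∈ Finset.Icc 1 N, b n * (n : ℂ) ^ (-((σ : ℂ) + y * I))‖ ^ 2 :=
      continuous_const.mul (hcont.pow 2)
    have step : ‖∫ y in T..2 * T, G ((σ : ℂ) + (y : ℂ) * I) * TP b σ N ((σ : ℂ) + (y : ℂ) * I)‖ ≤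
        ∫ y in T..2 * T, (1 / 2 * ‖∑ n ∈ Finset.Icc 1 N, b n * (n : ℂ) ^ (-((σ : ℂ) + y * I))‖ ^ 2 +
          1 / 2 * (A * ℓ) ^ 2) := by
      refine intervalIntegral.norm_integral_le_of_norm_le hle ?_ ?_
      · refine Filter.Eventually.of_forall fun y hy => ?_
        rw [norm_mul, tp_norm]
        have b1 : ((σ : ℂ) + (y : ℂ) * I).re = σ := by simp
        have b2 : ((σ : ℂ) + (y : ℂ) * I).im = y := by simp
        have h3 := hGA ((σ : ℂ) + (y : ℂ) * I) (by rw [b1]) (by rw [b1]; linarith) (by rw [b2]; exact hy.1.le)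
          (by rw [b2]; exact hy.2)
        have h4 := norm_nonneg (∑ n ∈ Finset.Icc 1 N, b n * (n : ℂ) ^ (-((σ : ℂ) + y * I)))
        refine (mul_le_mul_of_nonneg_right h3 h4).trans ?_
        nlinarith [sq_nonneg (A * ℓ - ‖∑ n ∈ Finset.Icc 1 N, b n * (n : ℂ) ^ (-((σ : ℂ) + y * I))‖)]
      · exact (hc2.add continuous_const).intervalIntegrable _ _
    refine step.trans ?_
    rw [intervalIntegral.integral_add (hc2.intervalIntegrable _ _)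
      (continuous_const.intervalIntegrable _ _), intervalIntegral.integral_const_mul,
      intervalIntegral.integral_const, smul_eq_mul]
    have e : (2 * T - T) * (1 / 2 * (A * ℓ) ^ 2) = 1 / 2 * (A * ℓ) ^ 2 * T := by ring
    rw [e]
    linarith [mul_le_mul_of_nonneg_left hMS1 (by norm_num : (0 : ℝ) ≤ 1 / 2)]
  -- the right side
  have hright : T * V - K₀ * B ^ 2 * (N : ℝ) ^ 9 ≤
      ‖∫ y in T..2 * T, G ((4 : ℂ) + (y : ℂ) * I) * TP b σ N ((4 : ℂ) + (y : ℂ) * I)‖ := by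
    refine hVK1.trans (le_of_eq ?_)
    congr 1
    refine intervalIntegral.integral_congr fun t ht => ?_
    rw [Set.uIcc_of_le (by linarith)] at ht
    change _ = G ((4 : ℂ) + (t : ℂ) * I) * TP b σ N ((4 : ℂ) + (t : ℂ) * I)
    rw [hG4 t (by linarith [ht.1])]
    rfl
  have hI : ‖∫ y in T..2 * T, G ((4 : ℂ) + (y : ℂ) * I) * TP b σ N ((4 : ℂ) + (y : ℂ) * I)‖ ≤
      ‖∫ y in T..2 * T, G ((σ : ℂ) + (y : ℂ) * I) * TP b σ N ((σ : ℂ) + (y : ℂ) * I)‖ +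
        10 * (A * ℓ * (B * (N : ℝ) ^ 8)) := by
    have a1 := hhor T le_rfl (by linarith)
    have a2 := hhor (2 * T) (by linarith) le_rfl
    generalize (∫ y in T..2 * T, G ((4 : ℂ) + (y : ℂ) * I) * TP b σ N ((4 : ℂ) + (y : ℂ) * I)) = J4
      at hrect ⊢
    generalize (∫ y in T..2 * T, G ((σ : ℂ) + (y : ℂ) * I) * TP b σ N ((σ : ℂ) + (y : ℂ) * I)) = Jσ
      at hrect ⊢
    generalize (∫ x in σ..4, G ((x : ℂ) + (T : ℂ) * I) * TP b σ N ((x : ℂ) + (T : ℂ) * I)) = H1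
      at hrect a1
    generalize (∫ x in σ..4, G ((x : ℂ) + ((2 * T : ℝ) : ℂ) * I) *
      TP b σ N ((x : ℂ) + ((2 * T : ℝ) : ℂ) * I)) = H2 at hrect a2
    have h3 : I * J4 = I * Jσ - H1 + H2 := by linear_combination hrect
    have h4 : ‖J4‖ = ‖I * J4‖ := by rw [norm_mul, norm_I, one_mul]
    rw [h4, h3]
    calc ‖I * Jσ - H1 + H2‖ ≤ ‖I * Jσ - H1‖ + ‖H2‖ := norm_add_le _ _
      _ ≤ ‖I * Jσ‖ + ‖H1‖ + ‖H2‖ := by gcongr; exact norm_sub_le _ _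
      _ = ‖Jσ‖ + ‖H1‖ + ‖H2‖ := by rw [norm_mul, norm_I, one_mul]
      _ ≤ _ := by linarith
  have hfin : 1 / 2 * (T * V) ≤ (K₀ + 1) * B ^ 2 * (N : ℝ) ^ 9 + 1 / 2 * (A * ℓ) ^ 2 * T +
      10 * (A * ℓ * (B * (N : ℝ) ^ 8)) := by
    have := hright.trans (hI.trans (add_le_add_left hleft _))
    nlinarith [this]
  have hN9 : (N : ℝ) ^ 9 ≤ T := by
    rw [hT]
    exact pow_le_pow_right₀ (by linarith) (by norm_num)
  have hN8 : (N : ℝ) ^ 8 ≤ T := by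
    rw [hT]
    exact pow_le_pow_right₀ (by linarith) (by norm_num)
  have hfin2 : T * V ≤ T * (2 * (K₀ + 1) * B ^ 2 + (A * ℓ) ^ 2 + 20 * (A * ℓ * B)) := by
    have c1 : (K₀ + 1) * B ^ 2 * (N : ℝ) ^ 9 ≤ (K₀ + 1) * B ^ 2 * T := by gcongr
    have c2 : 10 * (A * ℓ * (B * (N : ℝ) ^ 8)) ≤ 10 * (A * ℓ * (B * T)) := by gcongr
    linarith
  have hfin3 := le_of_mul_le_mul_left hfin2 hT0
  refine hfin3.trans ?_
  have d1 : A * ℓ ≤ 21 * A * Real.log N := by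
    calc A * ℓ ≤ A * (21 * Real.log N) := by gcongr
      _ = _ := by ring
  have d2 : (A * ℓ) ^ 2 ≤ (21 * A) ^ 2 * Real.log N ^ 2 := by
    calc (A * ℓ) ^ 2 ≤ (21 * A * Real.log N) ^ 2 := pow_le_pow_left₀ (by positivity) d1 2
      _ = _ := by ring
  have hl2 : Real.log N ≤ Real.log N ^ 2 := by nlinarith
  have hl3 : 1 ≤ Real.log N ^ 2 := by nlinarith
  have d3 : 20 * (A * ℓ * B) ≤ 420 * A * B * Real.log N ^ 2 := by
    calc 20 * (A * ℓ * B) ≤ 20 * (21 * A * Real.log N * B) := by gcongr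
      _ = 420 * A * B * Real.log N := by ring
      _ ≤ 420 * A * B * Real.log N ^ 2 := by gcongr
  have d4 : 2 * (K₀ + 1) * B ^ 2 ≤ 2 * (K₀ + 1) * B ^ 2 * Real.log N ^ 2 := by
    have : 0 ≤ 2 * (K₀ + 1) * B ^ 2 := by positivity
    nlinarith
  linarith

end Pool.Agent.K6.H88.CM
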