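import Mathlib

/-!
# Statements for MP_768c9c_nt (helper88, project CM)

`f` completely multiplicative with `∑_{n ≤ N} f(n) = O(N^(-θ))`, `θ > 1/2`: infinitely many zeros of `F`
to the right of `-1/2 - δ`.
-/

set_option autoImplicit false
set_option linter.all false

open Filter Topology Complex

namespace Pool.Agent.K6.H88.CM

/-- completely multiplicative -/
structure IsCM (f : ℕ → ℂ) : Prop where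
  one : f 1 = 1
  mul : ∀ m n : ℕ, 0 < m → 0 < n → f (m * n) = f m * f n

/-- partial sums -/
noncomputable def PS (f : ℕ → ℂ) (N : ℕ) : ℂ := ∑ n ∈ Finset.Icc 1 N, f n

/-- decay of the partial sums -/
def Dec (f : ℕ → ℂ) (θ C : ℝ) : Prop := ∀ N : ℕ, 0 < N → ‖PS f N‖ ≤ C * (N : ℝ) ^ (-θ)

/-- partial sums of the Dirichlet series -/
noncomputable def DS (f : ℕ → ℂ) (s : ℂ) (N : ℕ) : ℂ := ∑ n ∈ Finset.Icc 1 N, f n * (n : ℂ) ^ (-s)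

/-- CONT: the Dirichlet series converges for `Re s > -θ` to an analytic function of linear growth
(take `F s = ∑' n, PS f (n+1) * ((n+1)^(-s) - (n+2)^(-s))`, `|(n+1)^(-s) - (n+2)^(-s)| ≤ |s| (n+1)^(-Re s - 1)`,
`differentiableOn_tsum_of_summable_norm`). -/
def S_CONT : Prop := ∀ (f : ℕ → ℂ) (θ C : ℝ), 0 < θ → Dec f θ C → ∃ F : ℂ → ℂ,
  DifferentiableOn ℂ F {s | -θ < s.re} ∧
  (∀ s : ℂ, -θ < s.re → Tendsto (DS f s) atTop (𝓝 (F s))) ∧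
  ∀ ε : ℝ, 0 < ε → ∃ K : ℝ, ∀ s : ℂ, -θ + ε ≤ s.re → ‖F s‖ ≤ K * (1 + ‖s‖)

/-- END: if `∑_p |f(p)|² p^(1+η)` grows at most like `log²` then `∑ |f(n)| < ∞` (Cauchy-Schwarz and Euler
product), so that the sum of all `f(n)` is `∏ (1 - f(p))⁻¹ ≠ 0`. -/
def S_END : Prop := ∀ (f : ℕ → ℂ) (η K : ℝ), IsCM f → (∀ p : ℕ, p.Prime → ‖f p‖ < 1) → 0 < η →
  (∀ᶠ N : ℕ in atTop, ∑ p ∈ (Finset.Icc 1 N).filter Nat.Prime, ‖f p‖ ^ 2 * (p : ℝ) ^ (1 + η) ≤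
    K * Real.log N ^ 2) →
  ¬ Tendsto (PS f) atTop (𝓝 0)

/-- MS: mean square of a Dirichlet polynomial: `|log (n/m)| ≥ 1/N`. -/
def S_MS : Prop := ∀ (b : ℕ → ℂ) (B σ : ℝ), -1 ≤ σ → σ ≤ 0 → 0 ≤ B → (∀ n : ℕ, ‖b n‖ ≤ B * n) →
  ∀ (N : ℕ) (T : ℝ), 1 ≤ N → 0 < T →
    ∫ t in T..2 * T, ‖∑ n ∈ Finset.Icc 1 N, b n * (n : ℂ) ^ (-((σ : ℂ) + t * I))‖ ^ 2 ≤
      T * ∑ n ∈ Finset.Icc 1 N, ‖b n‖ ^ 2 * (n : ℝ) ^ (-2 * σ) + 2 * B ^ 2 * (N : ℝ) ^ 9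

/-- VK: the vertical integral in the region of absolute convergence (`Re s = 4`). -/
def S_VK : Prop := ∃ K₀ : ℝ, 0 ≤ K₀ ∧ ∀ (b : ℕ → ℂ) (B σ : ℝ), -1 ≤ σ → σ ≤ 0 → 0 ≤ B → b 0 = 0 →
  (∀ n : ℕ, ‖b n‖ ≤ B * n) → ∀ (N : ℕ) (T : ℝ), 1 ≤ N → 0 < T →
    T * ∑ n ∈ Finset.Icc 1 N, ‖b n‖ ^ 2 * (n : ℝ) ^ (-2 * σ) - K₀ * B ^ 2 * (N : ℝ) ^ 9 ≤
      ‖∫ t in T..2 * T, (∑' m : ℕ, b m * (m : ℂ) ^ (-((4 : ℂ) + t * I))) *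
        ∑ n ∈ Finset.Icc 1 N, (starRingEnd ℂ) (b n) * (n : ℂ) ^ (-2 * (σ : ℂ)) *
          (n : ℂ) ^ ((4 : ℂ) + t * I)‖

/-- LOG: the logarithmic derivative (as `DirichletCharacter.LSeries_twist_vonMangoldt_eq`). -/
def S_LOG : Prop := ∀ f : ℕ → ℂ, IsCM f → f 0 = 0 → (∀ n : ℕ, ‖f n‖ ≤ 1) → ∀ s : ℂ, 1 < s.re →
  LSeriesSummable (fun n => f n * (ArithmeticFunction.vonMangoldt n : ℂ)) s ∧ LSeries f s ≠ 0 ∧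
  LSeries (fun n => f n * (ArithmeticFunction.vonMangoldt n : ℂ)) s =
    -deriv (LSeries f) s / LSeries f s

end Pool.Agent.K6.H88.CM
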