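import Pool.Agent.K6.H88.CM.Stm

/-! Piece VK of call88 (helper52). -/

set_option autoImplicit false

open Filter Topology Complex MeasureTheory

namespace Pool.Agent.K6.H88.CM

namespace VK

lemma cp {n : ℕ} (hn : 0 < n) (t : ℝ) :
    (n : ℂ) ^ ((4 : ℂ) + t * I) = (n : ℂ) ^ 4 * exp ((Real.log n : ℂ) * I * t) := by
  have h0 : (n : ℂ) ≠ 0 := by exact_mod_cast hn.ne'
  rw [cpow_add _ _ h0, cpow_ofNat, cpow_def_of_ne_zero h0, ← natCast_log]
  congr 2
  ring

/-- the kernel -/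
noncomputable def E (m n : ℕ) (t : ℝ) : ℂ :=
  (m : ℂ) ^ (-((4 : ℂ) + t * I)) * (n : ℂ) ^ ((4 : ℂ) + t * I)

lemma E_eq {m n : ℕ} (hm : 0 < m) (hn : 0 < n) (t : ℝ) :
    E m n t = ((n : ℂ) / m) ^ 4 * exp (((Real.log n - Real.log m : ℝ) : ℂ) * I * t) := by
  have h0 : (m : ℂ) ≠ 0 := by exact_mod_cast hm.ne'
  unfold E
  rw [cpow_neg, cp hm, cp hn, ofReal_sub,
    show ((Real.log n : ℂ) - (Real.log m : ℂ)) * I * t =
      (Real.log n : ℂ) * I * t - (Real.log m : ℂ) * I * t by ring, exp_sub]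
  have h1 := exp_ne_zero ((Real.log m : ℂ) * I * t)
  field_simp

lemma log_lower {m n : ℕ} (hm : 0 < m) (hmn : m < n) :
    ((m : ℝ) * n)⁻¹ ≤ Real.log n - Real.log m := by
  have hm' : (0 : ℝ) < m := by exact_mod_cast hm
  have hn' : (0 : ℝ) < n := by exact_mod_cast hm.trans hmn
  have h1 := Real.one_sub_inv_le_log_of_pos (div_pos hn' hm')
  rw [Real.log_div hn'.ne' hm'.ne', inv_div] at h1
  refine le_trans ?_ h1
  have h2 : (m : ℝ) + 1 ≤ n := by exact_mod_cast hmn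
  have h3 : (1 : ℝ) ≤ m := by exact_mod_cast hm
  rw [inv_eq_one_div, div_le_iff₀ (by positivity)]
  have h4 : (1 - (m : ℝ) / n) * (m * n) = m * (n - m) := by field_simp
  rw [h4]
  nlinarith

lemma log_lower' {m n : ℕ} (hm : 0 < m) (hn : 0 < n) (hmn : n ≠ m) :
    ((m : ℝ) * n)⁻¹ ≤ |Real.log n - Real.log m| := by
  rcases lt_or_gt_of_ne hmn with h | h
  · rw [abs_sub_comm, mul_comm]
    exact (log_lower hn h).trans (le_abs_self _)
  · exact (log_lower hm h).trans (le_abs_self _)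

lemma int_diag {m : ℕ} (hm : 0 < m) (T : ℝ) : ∫ t in T..2 * T, E m m t = (T : ℂ) := by
  have h0 : (m : ℂ) ≠ 0 := by exact_mod_cast hm.ne'
  have h1 : ∀ t : ℝ, E m m t = 1 := by
    intro t
    rw [E_eq hm hm, div_self h0]
    simp
  simp_rw [h1]
  rw [intervalIntegral.integral_const]
  simp
  ring

lemma int_off {m n : ℕ} (hm : 0 < m) (hn : 0 < n) (hmn : n ≠ m) (T : ℝ) :
    ‖∫ t in T..2 * T, E m n t‖ ≤ ((n : ℝ) / m) ^ 4 * (2 * (m * n)) := by
  have hm' : (0 : ℝ) < m := by exact_mod_cast hm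
  have hn' : (0 : ℝ) < n := by exact_mod_cast hn
  have hlow := log_lower' hm hn hmn
  set L : ℝ := Real.log n - Real.log m with hL
  have hLpos : 0 < |L| := lt_of_lt_of_le (by positivity) hlow
  have hL0 : L ≠ 0 := abs_pos.1 hLpos
  have hc : (L : ℂ) * I ≠ 0 := mul_ne_zero (by exact_mod_cast hL0) I_ne_zero
  have h1 : ∫ t in T..2 * T, E m n t =
      ((n : ℂ) / m) ^ 4 * ∫ t in T..2 * T, exp ((L : ℂ) * I * t) := by
    rw [← intervalIntegral.integral_const_mul]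
    exact intervalIntegral.integral_congr fun t _ => E_eq hm hn t
  have h2 : ‖∫ t in T..2 * T, exp ((L : ℂ) * I * t)‖ ≤ 2 * (m * n) := by
    rw [integral_exp_mul_complex hc, norm_div, norm_mul, norm_I, mul_one, norm_real,
      Real.norm_eq_abs, div_le_iff₀ hLpos]
    have e : ∀ x : ℝ, ‖exp ((L : ℂ) * I * x)‖ = 1 := by
      intro x
      rw [show (L : ℂ) * I * x = ((L * x : ℝ) : ℂ) * I by push_cast; ring,
        norm_exp_ofReal_mul_I]
    have h3 : ‖exp ((L : ℂ) * I * ((2 * T : ℝ) : ℂ)) - exp ((L : ℂ) * I * (T : ℂ))‖ ≤ 2 := by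
      refine (norm_sub_le _ _).trans ?_
      rw [e, e]
      norm_num
    refine h3.trans ?_
    have h4 : 1 ≤ (m * n : ℝ) * |L| := by
      rw [inv_eq_one_div, div_le_iff₀ (by positivity)] at hlow
      linarith
    nlinarith
  rw [h1, norm_mul]
  have h5 : ‖((n : ℂ) / m) ^ 4‖ = ((n : ℝ) / m) ^ 4 := by
    rw [norm_pow, norm_div, norm_natCast, norm_natCast]
  rw [h5]
  exact mul_le_mul_of_nonneg_left h2 (by positivity)

lemma four_ne (t : ℝ) : (4 : ℂ) + t * I ≠ 0 := by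
  intro h
  have := congrArg re h
  simp at this

lemma cont1 (n : ℕ) : Continuous fun t : ℝ => (n : ℂ) ^ ((4 : ℂ) + t * I) :=
  Continuous.const_cpow (by fun_prop) (Or.inr four_ne)

lemma cont2 (n : ℕ) : Continuous fun t : ℝ => (n : ℂ) ^ (-((4 : ℂ) + t * I)) :=
  Continuous.const_cpow (by fun_prop) (Or.inr fun t => neg_ne_zero.2 (four_ne t))

lemma norm1 {n : ℕ} (hn : 0 < n) (t : ℝ) : ‖(n : ℂ) ^ ((4 : ℂ) + t * I)‖ = (n : ℝ) ^ 4 := by
  rw [norm_natCast_cpow_of_pos hn]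
  have : ((4 : ℂ) + t * I).re = ((4 : ℕ) : ℝ) := by simp
  rw [this, Real.rpow_natCast]

lemma norm2 {n : ℕ} (hn : 0 < n) (t : ℝ) :
    ‖(n : ℂ) ^ (-((4 : ℂ) + t * I))‖ = ((n : ℝ) ^ 4)⁻¹ := by
  rw [cpow_neg, norm_inv, norm1 hn]

lemma norm3 {n : ℕ} (hn : 0 < n) {σ : ℝ} (hσ : -1 ≤ σ) :
    ‖(n : ℂ) ^ (-2 * (σ : ℂ))‖ ≤ (n : ℝ) ^ 2 := by
  rw [norm_natCast_cpow_of_pos hn]
  have h1 : (-2 * (σ : ℂ)).re = -2 * σ := by simp
  rw [h1, ← Real.rpow_natCast]
  exact Real.rpow_le_rpow_of_exponent_le (by exact_mod_cast hn) (by push_cast; linarith)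

end VK

open VK in
theorem t_VK : S_VK := by
  have hZ : Summable fun m : ℕ => ((m : ℝ) ^ 2)⁻¹ := Real.summable_nat_pow_inv.2 (by norm_num)
  refine ⟨2 * ∑' m : ℕ, ((m : ℝ) ^ 2)⁻¹, by positivity, ?_⟩
  intro b B σ hσ _ hB hb0 hb N T hN _
  -- terms
  have hbm : ∀ (m : ℕ) (t : ℝ), ‖b m * (m : ℂ) ^ (-((4 : ℂ) + t * I))‖ ≤ B * ((m : ℝ) ^ 2)⁻¹ := by
    intro m t
    rcases Nat.eq_zero_or_pos m with rfl | hm
    · rw [hb0]
      simp
    · have hm1 : (1 : ℝ) ≤ m := by exact_mod_cast hm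
      rw [norm_mul, norm2 hm]
      calc ‖b m‖ * ((m : ℝ) ^ 4)⁻¹ ≤ B * m * ((m : ℝ) ^ 4)⁻¹ :=
            mul_le_mul_of_nonneg_right (hb m) (by positivity)
        _ = B * ((m : ℝ) ^ 3)⁻¹ := by field_simp
        _ ≤ B * ((m : ℝ) ^ 2)⁻¹ := by
          apply mul_le_mul_of_nonneg_left _ hB
          exact inv_anti₀ (by positivity) (pow_le_pow_right₀ hm1 (by norm_num))
  obtain ⟨P, hP⟩ : ∃ P : ℝ → ℂ, ∀ t, P t = ∑ n ∈ Finset.Icc 1 N,
      (starRingEnd ℂ) (b n) * (n : ℂ) ^ (-2 * (σ : ℂ)) * (n : ℂ) ^ ((4 : ℂ) + t * I) :=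
    ⟨_, fun t => rfl⟩
  have hPc : Continuous P := by
    rw [show P = fun t : ℝ => ∑ n ∈ Finset.Icc 1 N, (starRingEnd ℂ) (b n) * (n : ℂ) ^ (-2 * (σ : ℂ)) *
      (n : ℂ) ^ ((4 : ℂ) + t * I) from funext hP]
    exact continuous_finsetSum _ fun n _ => continuous_const.mul (cont1 n)
  obtain ⟨M, hM⟩ : ∃ M : ℝ, M = ∑ n ∈ Finset.Icc 1 N,
      ‖(starRingEnd ℂ) (b n) * (n : ℂ) ^ (-2 * (σ : ℂ))‖ * (n : ℝ) ^ 4 := ⟨_, rfl⟩
  have hPM : ∀ t, ‖P t‖ ≤ M := by
    intro t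
    rw [hP, hM]
    refine (norm_sum_le _ _).trans (Finset.sum_le_sum fun n hn => ?_)
    rw [norm_mul, norm1 (Finset.mem_Icc.1 hn).1]
  have hM0 : 0 ≤ M := (norm_nonneg _).trans (hPM 0)
  set F : ℕ → ℝ → ℂ := fun m t => b m * (m : ℂ) ^ (-((4 : ℂ) + t * I)) * P t with hF
  have hsum : HasSum (fun m => ∫ t in T..2 * T, F m t)
      (∫ t in T..2 * T, (∑' m : ℕ, b m * (m : ℂ) ^ (-((4 : ℂ) + t * I))) * P t) := by
    refine intervalIntegral.hasSum_integral_of_dominated_convergence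
      (fun m _ => B * ((m : ℝ) ^ 2)⁻¹ * M) (fun m => ?_) (fun m => ?_) ?_ ?_ ?_
    · exact ((continuous_const.mul (cont2 m)).mul hPc).aestronglyMeasurable
    · filter_upwards with t _
      rw [hF]
      simp only [norm_mul (b m * (m : ℂ) ^ (-((4 : ℂ) + t * I))) (P t)]
      exact mul_le_mul (hbm m t) (hPM t) (norm_nonneg _) (by positivity)
    · filter_upwards with t _
      exact (hZ.mul_left B).mul_right M
    · exact intervalIntegrable_const
    · filter_upwards with t _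
      exact (Summable.of_norm_bounded (hZ.mul_left B) (hbm · t)).hasSum.mul_right (P t)
  -- the main term
  set X : ℕ → ℂ := fun m => ((T * (‖b m‖ ^ 2 * (m : ℝ) ^ (-2 * σ)) : ℝ) : ℂ) with hX
  have hmain : HasSum (fun m : ℕ => if m ∈ Finset.Icc 1 N then X m else 0)
      (∑ m ∈ Finset.Icc 1 N, X m) := by
    have h : HasSum (fun m : ℕ => if m ∈ Finset.Icc 1 N then X m else 0)
        (∑ m ∈ Finset.Icc 1 N, if m ∈ Finset.Icc 1 N then X m else 0) :=
      hasSum_sum_of_ne_finset_zero fun m hm => if_neg hm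
    rwa [Finset.sum_congr rfl fun m hm => if_pos hm] at h
  have hdiff := hsum.sub hmain
  have hbd : ∀ m : ℕ, ‖(∫ t in T..2 * T, F m t) - (if m ∈ Finset.Icc 1 N then X m else 0)‖ ≤
      2 * B ^ 2 * (N : ℝ) ^ 9 * ((m : ℝ) ^ 2)⁻¹ := by
    intro m
    rcases Nat.eq_zero_or_pos m with rfl | hm
    · have h1 : ∀ t, F 0 t = 0 := by
        intro t
        rw [hF]
        simp [hb0]
      simp [h1]
    · have hm' : (0 : ℝ) < m := by exact_mod_cast hm
      have h1 : ∀ t, F m t = ∑ n ∈ Finset.Icc 1 N,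
          (b m * (starRingEnd ℂ) (b n) * (n : ℂ) ^ (-2 * (σ : ℂ))) * E m n t := by
        intro t
        rw [hF]
        simp only [hP, Finset.mul_sum]
        refine Finset.sum_congr rfl fun n _ => ?_
        unfold E
        ring
      have h2 : ∫ t in T..2 * T, F m t = ∑ n ∈ Finset.Icc 1 N,
          (b m * (starRingEnd ℂ) (b n) * (n : ℂ) ^ (-2 * (σ : ℂ))) *
            ∫ t in T..2 * T, E m n t := by
        rw [intervalIntegral.integral_congr fun t _ => h1 t,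
          intervalIntegral.integral_finsetSum]
        · exact Finset.sum_congr rfl fun n _ => intervalIntegral.integral_const_mul _ _
        · intro n _
          exact (continuous_const.mul ((cont2 m).mul (cont1 n))).intervalIntegrable _ _
      have h3 : (if m ∈ Finset.Icc 1 N then X m else 0) =
          ∑ n ∈ Finset.Icc 1 N, (if n = m then X m else 0) := by
        rw [Finset.sum_ite_eq']
      rw [h2, h3, ← Finset.sum_sub_distrib]
      have h4 : ∀ n ∈ Finset.Icc 1 N,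
          ‖(b m * (starRingEnd ℂ) (b n) * (n : ℂ) ^ (-2 * (σ : ℂ))) *
            (∫ t in T..2 * T, E m n t) - (if n = m then X m else 0)‖ ≤
          2 * B ^ 2 * (N : ℝ) ^ 8 * ((m : ℝ) ^ 2)⁻¹ := by
        intro n hn
        obtain ⟨hn1, hnN⟩ := Finset.mem_Icc.1 hn
        have hn' : (0 : ℝ) < n := by exact_mod_cast hn1
        by_cases hnm : n = m
        · subst hnm
          rw [if_pos rfl, int_diag hm]
          have e1 : (n : ℂ) ^ (-2 * (σ : ℂ)) = (((n : ℝ) ^ (-2 * σ) : ℝ) : ℂ) := by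
            rw [ofReal_cpow hn'.le]
            push_cast
            rfl
          have e2 : b n * (starRingEnd ℂ) (b n) = ((‖b n‖ ^ 2 : ℝ) : ℂ) := by
            rw [mul_conj, normSq_eq_norm_sq]
          have e3 : b n * (starRingEnd ℂ) (b n) * (n : ℂ) ^ (-2 * (σ : ℂ)) * (T : ℂ) - X n = 0 := by
            rw [e2, e1, hX]
            push_cast
            ring
          rw [e3, norm_zero]
          positivity
        · rw [if_neg hnm, sub_zero, norm_mul, norm_mul, norm_mul, RCLike.norm_conj]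
          have k1 := hb m
          have k2 := hb n
          have k3 := norm3 (n := n) hn1 hσ
          have k4 := int_off (m := m) (n := n) hm hn1 hnm T
          have hnN' : (n : ℝ) ≤ N := by exact_mod_cast hnN
          calc ‖b m‖ * ‖b n‖ * ‖(n : ℂ) ^ (-2 * (σ : ℂ))‖ * ‖∫ t in T..2 * T, E m n t‖
              ≤ (B * m) * (B * n) * (n : ℝ) ^ 2 * (((n : ℝ) / m) ^ 4 * (2 * (m * n))) := by
                gcongr
            _ = 2 * B ^ 2 * (n : ℝ) ^ 8 * ((m : ℝ) ^ 2)⁻¹ := by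
                field_simp
            _ ≤ 2 * B ^ 2 * (N : ℝ) ^ 8 * ((m : ℝ) ^ 2)⁻¹ := by
                gcongr
      refine (norm_sum_le _ _).trans ((Finset.sum_le_sum h4).trans ?_)
      rw [Finset.sum_const, Nat.card_Icc, Nat.add_sub_cancel, nsmul_eq_mul]
      apply le_of_eq
      ring
  have hfin := hdiff.norm_le_of_bounded (hZ.hasSum.mul_left (2 * B ^ 2 * (N : ℝ) ^ 9)) hbd
  have hXn : ‖∑ m ∈ Finset.Icc 1 N, X m‖ =
      |T * ∑ n ∈ Finset.Icc 1 N, ‖b n‖ ^ 2 * (n : ℝ) ^ (-2 * σ)| := by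
    rw [hX, ← ofReal_sum, norm_real, Real.norm_eq_abs, Finset.mul_sum]
  have hXn' := le_abs_self (T * ∑ n ∈ Finset.Icc 1 N, ‖b n‖ ^ 2 * (n : ℝ) ^ (-2 * σ))
  rw [← hXn] at hXn'
  have htri := norm_sub_norm_le (∑ m ∈ Finset.Icc 1 N, X m)
    (∫ t in T..2 * T, (∑' m : ℕ, b m * (m : ℂ) ^ (-((4 : ℂ) + t * I))) * P t)
  rw [norm_sub_rev] at htri
  simp only [← hP]
  linarith

end Pool.Agent.K6.H88.CM
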